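import Mathlib

set_option autoImplicit false

namespace Pool.Agent.MP_44310b

open Finset

/-- Few tuples are non-injective. -/
lemma card_not_inj (m k : ℕ) (hk : 0 < k) :
    (((univ : Finset (Fin m → Fin k)).filter (fun l => ¬ Function.Injective l)).card : ℝ)
      ≤ ((m : ℝ) ^ 2 / k) * (k : ℝ) ^ m := by
  classical
  have hkr : (0 : ℝ) < k := by exact_mod_cast hk
  have h1 : ((univ : Finset (Fin m → Fin k)).filter (fun l => Function.Injective l)).card
      = k.descFactorial m := by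
    have e : {l : Fin m → Fin k // Function.Injective l} ≃ (Fin m ↪ Fin k) :=
      Equiv.subtypeInjectiveEquivEmbedding _ _
    rw [← Fintype.card_subtype, Fintype.card_congr e, Fintype.card_embedding_eq]
    simp
  have h2 : ((univ : Finset (Fin m → Fin k)).filter (fun l => Function.Injective l)).card
      + ((univ : Finset (Fin m → Fin k)).filter (fun l => ¬ Function.Injective l)).card
      = k ^ m := by
    rw [Finset.card_filter_add_card_filter_not]
    simp
  have h3 : (((univ : Finset (Fin m → Fin k)).filter (fun l => ¬ Function.Injective l)).card : ℝ)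
      = (k : ℝ) ^ m - (k.descFactorial m : ℝ) := by
    have : ((k.descFactorial m : ℕ) : ℝ) +
      (((univ : Finset (Fin m → Fin k)).filter (fun l => ¬ Function.Injective l)).card : ℝ)
      = (k : ℝ) ^ m := by
      rw [← h1]; exact_mod_cast h2
    linarith
  rw [h3]
  by_cases hmk : m ≤ k
  · have h4 : ((k : ℝ) - m) ^ m ≤ (k.descFactorial m : ℝ) := by
      have := Nat.pow_sub_le_descFactorial k m
      have h5 : (((k + 1 - m) ^ m : ℕ) : ℝ) ≤ (k.descFactorial m : ℝ) := by exact_mod_cast this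
      refine le_trans ?_ h5
      push_cast
      have h6 : ((k + 1 - m : ℕ) : ℝ) = (k : ℝ) + 1 - m := by
        rw [Nat.cast_sub (by omega)]; push_cast; ring
      rw [h6]
      apply pow_le_pow_left₀
      · have : (m : ℝ) ≤ k := by exact_mod_cast hmk
        linarith
      · linarith
    have h7 : (1 : ℝ) + m * (-(m / k)) ≤ (1 + (-((m : ℝ) / k))) ^ m := by
      apply one_add_mul_le_pow
      have : (m : ℝ) / k ≤ 1 := by
        rw [div_le_one hkr]; exact_mod_cast hmk
      linarith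
    have h8 : ((k : ℝ) - m) ^ m = (k : ℝ) ^ m * (1 + (-((m : ℝ) / k))) ^ m := by
      rw [← mul_pow]; congr 1; field_simp; ring
    have h9 : (k : ℝ) ^ m * (1 + m * (-(m / k))) ≤ (k : ℝ) ^ m * (1 + (-((m : ℝ) / k))) ^ m :=
      mul_le_mul_of_nonneg_left h7 (by positivity)
    have h10 : (k : ℝ) ^ m * (1 + m * (-(m / k))) = (k:ℝ)^m - ((m : ℝ) ^ 2 / k) * (k : ℝ) ^ m := by
      field_simp; ring
    linarith
  · push Not at hmk
    have h4 : (1 : ℝ) ≤ (m : ℝ) ^ 2 / k := by
      rw [le_div_iff₀ hkr]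
      have : (k : ℝ) ≤ m := by exact_mod_cast hmk.le
      have h1m : (1 : ℝ) ≤ m := by
        have : 1 ≤ m := by omega
        exact_mod_cast this
      nlinarith
    have h5 : (0 : ℝ) ≤ (k.descFactorial m : ℝ) := by positivity
    have h6 : (k : ℝ) ^ m ≤ ((m : ℝ) ^ 2 / k) * (k : ℝ) ^ m :=
      le_mul_of_one_le_left (by positivity) h4
    linarith

/-- Expansion of a product of averages as a normalised sum over tuples. -/
lemma sum_prod_avg {Ω : Type*} [Fintype Ω] {m k : ℕ} (w : Ω → ℝ) (X : Fin m → Ω → Fin k → ℝ) :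
    ∑ p, w p * ∏ i, (∑ j, X i p j) = ∑ l : Fin m → Fin k, ∑ p, w p * ∏ i, X i p (l i) := by
  classical
  rw [Finset.sum_comm]
  refine Finset.sum_congr rfl fun p _ => ?_
  rw [Finset.prod_univ_sum]
  rw [Finset.mul_sum]
  rfl

/-- Comparison transferred from injective tuples to products of averages. -/
lemma sampling_compare {Ω : Type*} [Fintype Ω] {m k : ℕ} (hk : 0 < k) (K C : ℝ) (hK : 0 ≤ K)
    (hC : 1 ≤ C) (c d : Ω → ℝ) (hc : ∀ p, 0 ≤ c p) (hd : ∀ p, 0 ≤ d p)
    (X : Fin m → Ω → Fin k → ℝ) (hX1 : ∀ i p j, 1 / C ≤ X i p j) (hX2 : ∀ i p j, X i p j ≤ C)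
    (H : ∀ l : Fin m → Fin k, Function.Injective l →
      K * ∑ p, d p * ∏ i, X i p (l i) ≤ ∑ p, c p * ∏ i, X i p (l i)) :
    K * (1 - (m : ℝ) ^ 2 / k * C ^ (2 * m)) * ∑ p, d p * ∏ i, ((∑ j, X i p j) / k)
      ≤ ∑ p, c p * ∏ i, ((∑ j, X i p j) / k) := by
  classical
  have hkr : (0 : ℝ) < k := by exact_mod_cast hk
  have hC0 : 0 < C := by linarith
  have hX0 : ∀ i p j, 0 ≤ X i p j := fun i p j => le_trans (by positivity) (hX1 i p j)
  have key : ∀ w : Ω → ℝ, ∑ p, w p * ∏ i, ((∑ j, X i p j) / k)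
      = (∑ l : Fin m → Fin k, ∑ p, w p * ∏ i, X i p (l i)) / (k : ℝ) ^ m := by
    intro w
    rw [← sum_prod_avg, Finset.sum_div]
    refine Finset.sum_congr rfl fun p _ => ?_
    rw [Finset.prod_div_distrib]
    simp [mul_div_assoc]
  set Dall := ∑ l : Fin m → Fin k, ∑ p, d p * ∏ i, X i p (l i) with hDall
  set Call := ∑ l : Fin m → Fin k, ∑ p, c p * ∏ i, X i p (l i) with hCall
  set Dinj := ∑ l ∈ (univ : Finset (Fin m → Fin k)).filter (fun l => Function.Injective l),
    ∑ p, d p * ∏ i, X i p (l i) with hDinj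
  set Cinj := ∑ l ∈ (univ : Finset (Fin m → Fin k)).filter (fun l => Function.Injective l),
    ∑ p, c p * ∏ i, X i p (l i) with hCinj
  set Dnon := ∑ l ∈ (univ : Finset (Fin m → Fin k)).filter (fun l => ¬ Function.Injective l),
    ∑ p, d p * ∏ i, X i p (l i) with hDnon
  have e1 : Dinj + Dnon = Dall := Finset.sum_filter_add_sum_filter_not _ _ _
  have e2 : Cinj ≤ Call := by
    apply Finset.sum_le_sum_of_subset_of_nonneg (Finset.filter_subset _ _)
    intro l _ _
    exact Finset.sum_nonneg fun p _ => mul_nonneg (hc p) (Finset.prod_nonneg fun i _ => hX0 _ _ _)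
  have e3 : K * Dinj ≤ Cinj := by
    rw [hDinj, hCinj, Finset.mul_sum]
    apply Finset.sum_le_sum
    intro l hl
    exact H l (by simpa using hl)
  set D1 := ∑ p, d p with hD1
  have hD1nn : 0 ≤ D1 := Finset.sum_nonneg fun p _ => hd p
  have e4 : Dnon ≤ (((m : ℝ) ^ 2 / k) * (k : ℝ) ^ m) * (C ^ m * D1) := by
    have : ∀ l ∈ (univ : Finset (Fin m → Fin k)).filter (fun l => ¬ Function.Injective l),
        ∑ p, d p * ∏ i, X i p (l i) ≤ C ^ m * D1 := by
      intro l _
      rw [hD1, Finset.mul_sum]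
      apply Finset.sum_le_sum
      intro p _
      rw [mul_comm (C ^ m)]
      apply mul_le_mul_of_nonneg_left _ (hd p)
      calc ∏ i, X i p (l i) ≤ ∏ _i : Fin m, C :=
            Finset.prod_le_prod (fun i _ => hX0 _ _ _) (fun i _ => hX2 _ _ _)
        _ = C ^ m := by simp
    calc Dnon ≤ ∑ l ∈ (univ : Finset (Fin m → Fin k)).filter (fun l => ¬ Function.Injective l),
          C ^ m * D1 := Finset.sum_le_sum this
      _ = (((univ : Finset (Fin m → Fin k)).filter (fun l => ¬ Function.Injective l)).card : ℝ)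
          * (C ^ m * D1) := by rw [Finset.sum_const, nsmul_eq_mul]
      _ ≤ _ := mul_le_mul_of_nonneg_right (card_not_inj m k hk) (by positivity)
  have e5 : D1 ≤ C ^ m * (Dall / (k : ℝ) ^ m) := by
    rw [← key d, hD1, Finset.mul_sum]
    apply Finset.sum_le_sum
    intro p _
    have h1 : (1 / C) ^ m ≤ ∏ i, ((∑ j, X i p j) / k) := by
      calc (1 / C) ^ m = ∏ _i : Fin m, (1 / C) := by simp
        _ ≤ _ := by
          apply Finset.prod_le_prod
          · intro i _; positivity
          · intro i _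
            rw [le_div_iff₀ hkr]
            calc 1 / C * k = ∑ _j : Fin k, (1 / C) := by simp [mul_comm]
              _ ≤ _ := Finset.sum_le_sum fun j _ => hX1 i p j
    have h2 : C ^ m * (d p * ∏ i, ((∑ j, X i p j) / k)) = d p * (C ^ m * ∏ i, ((∑ j, X i p j) / k)) := by
      ring
    rw [h2]
    have h3 : 1 ≤ C ^ m * ∏ i, ((∑ j, X i p j) / k) := by
      calc (1 : ℝ) = C ^ m * (1 / C) ^ m := by rw [← mul_pow]; simp [hC0.ne']
        _ ≤ _ := mul_le_mul_of_nonneg_left h1 (by positivity)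
    exact le_mul_of_one_le_right (hd p) h3
  rw [key c, key d]
  have hkm : (0 : ℝ) < (k : ℝ) ^ m := by positivity
  rw [← hDall, ← hCall, ← sub_nonneg]
  have e6 : K * Dall - Call ≤ K * Dnon := by
    have : K * Dall = K * Dinj + K * Dnon := by rw [← e1]; ring
    linarith
  have e7 : K * Dnon ≤ K * ((((m : ℝ) ^ 2 / k) * (k : ℝ) ^ m) * (C ^ m * (C ^ m * (Dall / (k : ℝ) ^ m)))) := by
    apply mul_le_mul_of_nonneg_left _ hK
    refine le_trans e4 ?_
    apply mul_le_mul_of_nonneg_left _ (by positivity)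
    exact mul_le_mul_of_nonneg_left e5 (by positivity)
  have e8 : K * ((((m : ℝ) ^ 2 / k) * (k : ℝ) ^ m) * (C ^ m * (C ^ m * (Dall / (k : ℝ) ^ m))))
      = K * ((m : ℝ) ^ 2 / k * C ^ (2 * m)) * Dall := by
    rw [two_mul, pow_add]; field_simp
  have e9 : Call / (k : ℝ) ^ m - K * (1 - (m : ℝ) ^ 2 / k * C ^ (2 * m)) * (Dall / (k : ℝ) ^ m)
      = (Call - K * Dall + K * ((m : ℝ) ^ 2 / k * C ^ (2 * m)) * Dall) / (k : ℝ) ^ m := by
    field_simp; ring
  rw [e9]
  apply div_nonneg _ hkm.le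
  linarith

end Pool.Agent.MP_44310b
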