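import Mathlib
import Pool.Agent.Lib.MP_44310b_lc.Sampling

set_option autoImplicit false

namespace Pool.Agent.MP_44310b

open Finset

/-- The key analytic step for one weight: near equality in Cauchy-Schwarz gives small variance. -/
lemma variance_identity {Ω : Type*} [Fintype Ω] (h f : Ω → ℝ) (M0 M1 M2 : ℝ)
    (h0 : M0 = ∑ p, h p) (h1 : M1 = ∑ p, h p * f p) (h2 : M2 = ∑ p, h p * f p ^ 2)
    (hM0 : 0 < M0) (hM1 : 0 < M1) :
    ∑ p, h p * (f p - M1 / M0) ^ 2 = M1 * (M2 / M1 - M1 / M0) := by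
  have e : ∑ p, h p * (f p - M1 / M0) ^ 2
      = (∑ p, h p * f p ^ 2) - 2 * (M1 / M0) * (∑ p, h p * f p) + (M1 / M0) ^ 2 * ∑ p, h p := by
    rw [Finset.mul_sum, Finset.mul_sum, ← Finset.sum_sub_distrib, ← Finset.sum_add_distrib]
    exact Finset.sum_congr rfl fun p _ => by ring
  rw [e, ← h0, ← h1, ← h2]
  field_simp
  ring

lemma dev_pt (θ u v : ℝ) (hθ0 : 0 < θ) : |u - v| ≤ θ / 2 + (u ^ 2 + v ^ 2) / θ := by
  have h3 : (u - v) ^ 2 ≤ 2 * (u ^ 2 + v ^ 2) := by nlinarith [sq_nonneg (u + v)]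
  have h4 : |u - v| ≤ θ / 2 + (u - v) ^ 2 / (2 * θ) := by
    have h5 : 0 ≤ (|u - v| - θ) ^ 2 := sq_nonneg _
    have h6 : |u - v| ^ 2 = (u - v) ^ 2 := sq_abs _
    have h7 : θ / 2 + (u - v) ^ 2 / (2 * θ) = (θ ^ 2 + (u - v) ^ 2) / (2 * θ) := by field_simp
    rw [h7, le_div_iff₀ (by positivity)]
    nlinarith
  have h8 : (u - v) ^ 2 / (2 * θ) ≤ (u ^ 2 + v ^ 2) / θ := by
    rw [div_le_div_iff₀ (by positivity) hθ0]
    nlinarith
  linarith

lemma const_ineq (C T θ M : ℝ) (hθ0 : 0 < θ) (hT : 0 < T) (hM : 0 ≤ M)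
    (h11 : 8 * C ^ 2 < T * θ ^ 2) :
    M * (θ / 2) + (C * (2 * C / T) * M + C * (2 * C / T) * M) / θ ≤ θ * M := by
  have h9 : (C * (2 * C / T) * M + C * (2 * C / T) * M) / θ ≤ (θ / 2) * M := by
    rw [div_le_iff₀ hθ0]
    have h10 : C * (2 * C / T) + C * (2 * C / T) ≤ θ / 2 * θ := by
      have h12 : C * (2 * C / T) + C * (2 * C / T) = 4 * C ^ 2 / T := by ring
      rw [h12, div_le_iff₀ hT]
      nlinarith
    calc C * (2 * C / T) * M + C * (2 * C / T) * M
        = (C * (2 * C / T) + C * (2 * C / T)) * M := by ring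
      _ ≤ (θ / 2 * θ) * M := mul_le_mul_of_nonneg_right h10 hM
      _ = _ := by ring
  linarith

lemma ratio_mono_aux (a b c : ℝ) (ha : 0 < a) (hb : 0 < b) (h : b ^ 2 ≤ a * c) :
    0 ≤ c / b - b / a := by
  rw [sub_nonneg, div_le_div_iff₀ ha hb]
  nlinarith

lemma kappa_aux (K κ k a : ℝ) (hK : 0 < K) (hκ : κ < K) (hk : 0 < k)
    (h : a * K / (K - κ) < k) : a / k ≤ (K - κ) / K := by
  have hKκ : 0 < K - κ := by linarith
  rw [div_lt_iff₀ hKκ] at h
  rw [div_le_div_iff₀ hk hK]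
  linarith

lemma final_contra (κ C y F1 G1 M FY GY θ : ℝ) (hκ1 : 1 < κ) (hC : 1 ≤ C) (hyC : 1 / C ≤ y)
    (hF1nn : 0 ≤ F1) (hG1nn : 0 ≤ G1) (hM : 0 < M) (hMFG : M = F1 + G1)
    (cmp1 : κ * G1 ≤ F1) (cmp2 : κ * FY ≤ GY) (devF : y * F1 - θ * M ≤ FY)
    (devG : GY ≤ y * G1 + θ * M) (hθ : θ = (κ - 1) / (4 * C * κ)) : False := by
  have hκ0 : 0 < κ := by linarith
  have hC0 : 0 < C := by linarith
  have hinvC : 0 < 1 / C := by positivity
  have hθ0 : 0 < θ := by
    rw [hθ]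
    apply div_pos (by linarith) (by positivity)
  have hF1pos : 0 < F1 := by
    rcases eq_or_lt_of_le hF1nn with h | h
    · exfalso
      have : G1 ≤ 0 := by
        by_contra h2
        push Not at h2
        have : 0 < κ * G1 := mul_pos hκ0 h2
        linarith
      linarith
    · exact h
  have hG1F1 : G1 ≤ F1 / κ := by rw [le_div_iff₀ hκ0]; linarith
  have hM2 : M ≤ 2 * F1 := by
    have : F1 / κ ≤ F1 := div_le_self hF1pos.le hκ1.le
    linarith
  have hypos : 0 < y := lt_of_lt_of_le hinvC hyC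
  have fin1 : κ * (y * F1 - θ * M) ≤ y * G1 + θ * M := by
    calc κ * (y * F1 - θ * M) ≤ κ * FY := mul_le_mul_of_nonneg_left devF hκ0.le
      _ ≤ GY := cmp2
      _ ≤ _ := devG
  have fin2 : y * G1 ≤ y * (F1 / κ) := mul_le_mul_of_nonneg_left hG1F1 hypos.le
  have fin3 : κ * y * F1 - y * (F1 / κ) ≤ (κ + 1) * θ * (2 * F1) := by
    have h1 : (κ + 1) * θ * M ≤ (κ + 1) * θ * (2 * F1) :=
      mul_le_mul_of_nonneg_left hM2 (by positivity)
    have h2 : κ * (y * F1 - θ * M) = κ * y * F1 - κ * (θ * M) := by ring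
    have h3 : (κ + 1) * θ * M = κ * (θ * M) + θ * M := by ring
    rw [h2] at fin1
    rw [h3] at h1
    linarith
  have fin4 : y * ((κ - 1) * (κ + 1) / κ) ≤ 2 * ((κ + 1) * θ) := by
    have e : κ * y * F1 - y * (F1 / κ) = (y * ((κ - 1) * (κ + 1) / κ)) * F1 := by
      field_simp; ring
    rw [e] at fin3
    have : (y * ((κ - 1) * (κ + 1) / κ)) * F1 ≤ (2 * ((κ + 1) * θ)) * F1 := by linarith
    exact le_of_mul_le_mul_right this hF1pos
  have fin5 : y * ((κ - 1) / κ) ≤ 2 * θ := by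
    have e : y * ((κ - 1) * (κ + 1) / κ) = (y * ((κ - 1) / κ)) * (κ + 1) := by ring
    rw [e] at fin4
    have : (y * ((κ - 1) / κ)) * (κ + 1) ≤ (2 * θ) * (κ + 1) := by linarith
    exact le_of_mul_le_mul_right this (by linarith)
  have fin6 : 1 / C * ((κ - 1) / κ) ≤ y * ((κ - 1) / κ) :=
    mul_le_mul_of_nonneg_right hyC (div_nonneg (by linarith) hκ0.le)
  have fin7 : 2 * θ = 1 / C * ((κ - 1) / κ) / 2 := by
    rw [hθ]; field_simp; ring
  have fin8 : 0 < 1 / C * ((κ - 1) / κ) := mul_pos hinvC (div_pos (by linarith) hκ0)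
  linarith

set_option maxHeartbeats 1000000 in
theorem abstract_contradiction (K C : ℝ) (hK : 1 < K) (hC : 1 ≤ C) :
    ∃ k0 : ℕ, ∀ k : ℕ, k0 ≤ k → ∀ (Ω : Type) [Fintype Ω] (c d : Ω → ℝ)
      (A B : Ω → Fin k → ℝ),
      (∀ p, 0 ≤ c p) → (∀ p, 0 ≤ d p) → 0 < ∑ p, (c p + d p) →
      (∀ p j, 1 / C ≤ A p j) → (∀ p j, A p j ≤ C) → (∀ p j, 1 / C ≤ B p j) → (∀ p j, B p j ≤ C) →
      (∀ p j, 1 / C ≤ A p j - B p j) → (∀ p j, A p j - B p j ≤ C) →
      (∀ m (l : Fin m → Fin k), Function.Injective l → ∀ X : Fin m → Ω → Fin k → ℝ,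
        (∀ i, X i = A ∨ X i = B) →
        K * ∑ p, d p * ∏ i, X i p (l i) ≤ ∑ p, c p * ∏ i, X i p (l i)) →
      (∀ m (l : Fin (m + 1) → Fin k), Function.Injective l →
        ∀ X : Fin (m + 1) → Ω → Fin k → ℝ,
        (X 0 = fun p j => A p j - B p j) → (∀ i : Fin m, X i.succ = A ∨ X i.succ = B) →
        K * ∑ p, c p * ∏ i, X i p (l i) ≤ ∑ p, d p * ∏ i, X i p (l i)) → False := by
  classical
  set κ : ℝ := (1 + K) / 2 with hκ
  have hκ1 : 1 < κ := by rw [hκ]; linarith
  have hκK : κ < K := by rw [hκ]; linarith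
  have hκ0 : 0 < κ := by linarith
  have hC0 : 0 < C := by linarith
  set θ : ℝ := (κ - 1) / (4 * C * κ) with hθ
  have hθ0 : 0 < θ := by rw [hθ]; apply div_pos <;> nlinarith
  obtain ⟨T0, hT0⟩ : ∃ T0 : ℕ, 8 * C ^ 2 / θ ^ 2 < T0 := exists_nat_gt _
  have hT0pos : (0 : ℝ) < T0 := lt_trans (by positivity) hT0
  have hT0pos' : 0 < T0 := by exact_mod_cast hT0pos
  set m1 : ℕ := 2 * T0 + 1 with hm1
  obtain ⟨k0, hk0⟩ : ∃ k0 : ℕ, (m1 : ℝ) ^ 2 * C ^ (2 * m1) * K / (K - κ) < k0 := exists_nat_gt _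
  have hk0pos : (0 : ℝ) < k0 := by
    refine lt_of_le_of_lt ?_ hk0
    apply div_nonneg _ (by linarith)
    positivity
  refine ⟨k0, ?_⟩
  intro k hk Ω _ c d A B hc hd hpos hA1 hA2 hB1 hB2 hY1 hY2 H1 H2
  have hkr : (0 : ℝ) < k := lt_of_lt_of_le hk0pos (by exact_mod_cast hk)
  have hk' : 0 < k := by exact_mod_cast hkr
  have hκbound : ∀ m : ℕ, m ≤ m1 → κ ≤ K * (1 - (m : ℝ) ^ 2 / k * C ^ (2 * m)) := by
    intro m hm
    have h1 : (m : ℝ) ^ 2 / k * C ^ (2 * m) ≤ (m1 : ℝ) ^ 2 / k * C ^ (2 * m1) := by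
      apply mul_le_mul
      · apply div_le_div_of_nonneg_right _ hkr.le
        have : (m : ℝ) ≤ m1 := by exact_mod_cast hm
        exact pow_le_pow_left₀ (by positivity) this 2
      · exact pow_le_pow_right₀ hC (by omega)
      · positivity
      · positivity
    have h2 : (m1 : ℝ) ^ 2 / k * C ^ (2 * m1) ≤ (K - κ) / K := by
      have h3 : (m1 : ℝ) ^ 2 * C ^ (2 * m1) * K / (K - κ) < k :=
        lt_of_lt_of_le hk0 (by exact_mod_cast hk)
      rw [div_mul_eq_mul_div]
      exact kappa_aux K κ k _ (by linarith) hκK hkr h3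
    have hK0 : 0 < K := by linarith
    have h4 : (m : ℝ) ^ 2 / k * C ^ (2 * m) ≤ (K - κ) / K := le_trans h1 h2
    rw [le_div_iff₀ hK0] at h4
    nlinarith
  -- averages
  set Ab : Ω → ℝ := fun p => (∑ j, A p j) / k with hAb
  set Bb : Ω → ℝ := fun p => (∑ j, B p j) / k with hBb
  have avg_lo : ∀ (Z : Ω → Fin k → ℝ), (∀ p j, 1 / C ≤ Z p j) → ∀ p, 1 / C ≤ (∑ j, Z p j) / k := by
    intro Z hZ p
    rw [le_div_iff₀ hkr]
    calc 1 / C * k = ∑ _j : Fin k, (1 / C) := by simp [mul_comm]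
      _ ≤ _ := Finset.sum_le_sum fun j _ => hZ p j
  have avg_hi : ∀ (Z : Ω → Fin k → ℝ), (∀ p j, Z p j ≤ C) → ∀ p, (∑ j, Z p j) / k ≤ C := by
    intro Z hZ p
    rw [div_le_iff₀ hkr]
    calc (∑ j, Z p j) ≤ ∑ _j : Fin k, C := Finset.sum_le_sum fun j _ => hZ p j
      _ = C * k := by simp [mul_comm]
  have hAb1 : ∀ p, 1 / C ≤ Ab p := avg_lo A hA1
  have hAb2 : ∀ p, Ab p ≤ C := avg_hi A hA2
  have hBb1 : ∀ p, 1 / C ≤ Bb p := avg_lo B hB1
  have hBb2 : ∀ p, Bb p ≤ C := avg_hi B hB2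
  have hYb1 : ∀ p, 1 / C ≤ Ab p - Bb p := by
    intro p
    have := avg_lo (fun p j => A p j - B p j) hY1 p
    simp only [Finset.sum_sub_distrib, sub_div] at this
    exact this
  have hinvC : 0 < 1 / C := by positivity
  have hAb0 : ∀ p, 0 < Ab p := fun p => lt_of_lt_of_le hinvC (hAb1 p)
  have hBb0 : ∀ p, 0 < Bb p := fun p => lt_of_lt_of_le hinvC (hBb1 p)
  set q : ℕ → ℕ → Ω → ℝ := fun s t p => Ab p ^ s * Bb p ^ t with hq
  have hq0 : ∀ s t p, 0 < q s t p := fun s t p => mul_pos (pow_pos (hAb0 p) s) (pow_pos (hBb0 p) t)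
  set h : Ω → ℝ := fun p => c p + d p with hh
  have hh0 : ∀ p, 0 ≤ h p := fun p => add_nonneg (hc p) (hd p)
  set M : ℕ → ℕ → ℝ := fun s t => ∑ p, h p * q s t p with hM
  have hMpos : ∀ s t, 0 < M s t := by
    intro s t
    obtain ⟨p, -, hp⟩ : ∃ p ∈ (univ : Finset Ω), 0 < h p := by
      by_contra hcon
      push Not at hcon
      have : ∑ p, (c p + d p) ≤ 0 := Finset.sum_nonpos hcon
      linarith
    apply Finset.sum_pos'
    · intro p _; exact mul_nonneg (hh0 p) (hq0 s t p).le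
    · exact ⟨p, Finset.mem_univ _, mul_pos hp (hq0 s t p)⟩
  -- first moments
  have hMA : ∀ s t, M (s + 1) t = ∑ p, (h p * q s t p) * Ab p := by
    intro s t
    refine Finset.sum_congr rfl fun p _ => ?_
    simp only [hq]; ring
  have hMA2 : ∀ s t, M (s + 2) t = ∑ p, (h p * q s t p) * Ab p ^ 2 := by
    intro s t
    refine Finset.sum_congr rfl fun p _ => ?_
    simp only [hq]; ring
  have hMB : ∀ s t, M s (t + 1) = ∑ p, (h p * q s t p) * Bb p := by
    intro s t
    refine Finset.sum_congr rfl fun p _ => ?_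
    simp only [hq]; ring
  have hMB2 : ∀ s t, M s (t + 2) = ∑ p, (h p * q s t p) * Bb p ^ 2 := by
    intro s t
    refine Finset.sum_congr rfl fun p _ => ?_
    simp only [hq]; ring
  have hratioA : ∀ s t, 0 ≤ M (s + 1) t / M s t ∧ M (s + 1) t / M s t ≤ C := by
    intro s t
    refine ⟨(div_pos (hMpos _ _) (hMpos _ _)).le, ?_⟩
    rw [div_le_iff₀ (hMpos s t), hMA, hM]
    simp only
    rw [Finset.mul_sum]
    apply Finset.sum_le_sum
    intro p _
    rw [mul_comm C]
    exact mul_le_mul_of_nonneg_left (hAb2 p) (mul_nonneg (hh0 p) (hq0 s t p).le)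
  have hratioB : ∀ s t, 0 ≤ M s (t + 1) / M s t ∧ M s (t + 1) / M s t ≤ C := by
    intro s t
    refine ⟨(div_pos (hMpos _ _) (hMpos _ _)).le, ?_⟩
    rw [div_le_iff₀ (hMpos s t), hMB, hM]
    simp only
    rw [Finset.mul_sum]
    apply Finset.sum_le_sum
    intro p _
    rw [mul_comm C]
    exact mul_le_mul_of_nonneg_left (hBb2 p) (mul_nonneg (hh0 p) (hq0 s t p).le)
  set ρ : ℕ → ℕ → ℝ := fun s t => M (s + 1) t / M s t with hρ
  set σ : ℕ → ℕ → ℝ := fun s t => M s (t + 1) / M s t with hσ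
  -- telescoping
  have hsum : ∑ x ∈ (range T0) ×ˢ (range T0), ((ρ (x.1 + 1) x.2 - ρ x.1 x.2) + (σ x.1 (x.2 + 1) - σ x.1 x.2))
      ≤ ∑ x ∈ (range T0) ×ˢ (range T0), (2 * C / T0) := by
    rw [Finset.sum_add_distrib]
    have e1 : ∑ x ∈ (range T0) ×ˢ (range T0), (ρ (x.1 + 1) x.2 - ρ x.1 x.2) ≤ T0 * C := by
      rw [Finset.sum_product_right]
      calc ∑ t ∈ range T0, ∑ s ∈ range T0, (ρ (s + 1) t - ρ s t)
          = ∑ t ∈ range T0, (ρ T0 t - ρ 0 t) := by
            refine Finset.sum_congr rfl fun t _ => ?_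
            exact Finset.sum_range_sub (fun s => ρ s t) T0
        _ ≤ ∑ t ∈ range T0, C := by
            apply Finset.sum_le_sum
            intro t _
            have a := (hratioA T0 t).2
            have b := (hratioA 0 t).1
            simp only [hρ] at *
            linarith
        _ = T0 * C := by simp
    have e2 : ∑ x ∈ (range T0) ×ˢ (range T0), (σ x.1 (x.2 + 1) - σ x.1 x.2) ≤ T0 * C := by
      rw [Finset.sum_product]
      calc ∑ s ∈ range T0, ∑ t ∈ range T0, (σ s (t + 1) - σ s t)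
          = ∑ s ∈ range T0, (σ s T0 - σ s 0) := by
            refine Finset.sum_congr rfl fun s _ => ?_
            exact Finset.sum_range_sub (fun t => σ s t) T0
        _ ≤ ∑ s ∈ range T0, C := by
            apply Finset.sum_le_sum
            intro s _
            have a := (hratioB s T0).2
            have b := (hratioB s 0).1
            simp only [hσ] at *
            linarith
        _ = T0 * C := by simp
    have e3 : ∑ x ∈ (range T0) ×ˢ (range T0), (2 * C / T0 : ℝ) = T0 * C + T0 * C := by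
      rw [Finset.sum_const, Finset.card_product, Finset.card_range, nsmul_eq_mul]
      push_cast
      field_simp
      ring
    rw [e3]
    linarith
  obtain ⟨⟨s, t⟩, hst, hst2⟩ := Finset.exists_le_of_sum_le
    (by
      refine ⟨(0, 0), ?_⟩
      simp [hT0pos']) hsum
  rw [Finset.mem_product, Finset.mem_range, Finset.mem_range] at hst
  simp only at hst hst2
  -- Cauchy-Schwarz
  have csA : 0 ≤ ρ (s + 1) t - ρ s t := by
    have h1 : M (s + 1) t ^ 2 ≤ M s t * M (s + 2) t := by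
      rw [hMA s t, hMA2 s t, hM]
      apply Finset.sum_sq_le_sum_mul_sum_of_sq_le_mul
      · intro p _; exact mul_nonneg (hh0 p) (hq0 s t p).le
      · intro p _; exact mul_nonneg (mul_nonneg (hh0 p) (hq0 s t p).le) (by positivity)
      · intro p _; apply le_of_eq; ring
    exact ratio_mono_aux _ _ _ (hMpos _ _) (hMpos _ _) h1
  have csB : 0 ≤ σ s (t + 1) - σ s t := by
    have h1 : M s (t + 1) ^ 2 ≤ M s t * M s (t + 2) := by
      rw [hMB s t, hMB2 s t, hM]
      apply Finset.sum_sq_le_sum_mul_sum_of_sq_le_mul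
      · intro p _; exact mul_nonneg (hh0 p) (hq0 s t p).le
      · intro p _; exact mul_nonneg (mul_nonneg (hh0 p) (hq0 s t p).le) (by positivity)
      · intro p _; apply le_of_eq; ring
    exact ratio_mono_aux _ _ _ (hMpos _ _) (hMpos _ _) h1
  have hΔA : ρ (s + 1) t - ρ s t ≤ 2 * C / T0 := by linarith
  have hΔB : σ s (t + 1) - σ s t ≤ 2 * C / T0 := by linarith
  -- variances
  have varA : ∑ p, (h p * q s t p) * (Ab p - ρ s t) ^ 2 ≤ C * (2 * C / T0) * M s t := by
    rw [variance_identity (fun p => h p * q s t p) Ab (M s t) (M (s + 1) t) (M (s + 2) t) rfl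
      (hMA s t) (hMA2 s t) (hMpos _ _) (hMpos _ _)]
    have h1 : M (s + 1) t ≤ C * M s t := by
      have := (hratioA s t).2
      rwa [div_le_iff₀ (hMpos s t)] at this
    have h2 : M (s + 2) t / M (s + 1) t - M (s + 1) t / M s t = ρ (s + 1) t - ρ s t := rfl
    rw [h2]
    calc M (s + 1) t * (ρ (s + 1) t - ρ s t) ≤ (C * M s t) * (2 * C / T0) := by
          apply mul_le_mul h1 hΔA csA
          exact mul_nonneg hC0.le (hMpos _ _).le
      _ = _ := by ring
  have varB : ∑ p, (h p * q s t p) * (Bb p - σ s t) ^ 2 ≤ C * (2 * C / T0) * M s t := by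
    rw [variance_identity (fun p => h p * q s t p) Bb (M s t) (M s (t + 1)) (M s (t + 2)) rfl
      (hMB s t) (hMB2 s t) (hMpos _ _) (hMpos _ _)]
    have h1 : M s (t + 1) ≤ C * M s t := by
      have := (hratioB s t).2
      rwa [div_le_iff₀ (hMpos s t)] at this
    have h2 : M s (t + 2) / M s (t + 1) - M s (t + 1) / M s t = σ s (t + 1) - σ s t := rfl
    rw [h2]
    calc M s (t + 1) * (σ s (t + 1) - σ s t) ≤ (C * M s t) * (2 * C / T0) := by
          apply mul_le_mul h1 hΔB csB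
          exact mul_nonneg hC0.le (hMpos _ _).le
      _ = _ := by ring
  set y : ℝ := ρ s t - σ s t with hy
  have dev : ∑ p, (h p * q s t p) * |(Ab p - Bb p) - y| ≤ θ * M s t := by
    have h1 : ∀ p, (h p * q s t p) * |(Ab p - Bb p) - y| ≤
        (h p * q s t p) * (θ / 2) + ((h p * q s t p) * (Ab p - ρ s t) ^ 2 +
          (h p * q s t p) * (Bb p - σ s t) ^ 2) / θ := by
      intro p
      have hw : 0 ≤ h p * q s t p := mul_nonneg (hh0 p) (hq0 s t p).le
      have h2 : |(Ab p - Bb p) - y| ≤ θ / 2 + ((Ab p - ρ s t) ^ 2 + (Bb p - σ s t) ^ 2) / θ := by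
        have hx2 : (Ab p - Bb p) - y = (Ab p - ρ s t) - (Bb p - σ s t) := by rw [hy]; ring
        rw [hx2]
        exact dev_pt θ _ _ hθ0
      calc (h p * q s t p) * |(Ab p - Bb p) - y| ≤
          (h p * q s t p) * (θ / 2 + ((Ab p - ρ s t) ^ 2 + (Bb p - σ s t) ^ 2) / θ) :=
            mul_le_mul_of_nonneg_left h2 hw
        _ = _ := by ring
    calc ∑ p, (h p * q s t p) * |(Ab p - Bb p) - y| ≤ ∑ p, ((h p * q s t p) * (θ / 2) +
          ((h p * q s t p) * (Ab p - ρ s t) ^ 2 + (h p * q s t p) * (Bb p - σ s t) ^ 2) / θ) :=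
          Finset.sum_le_sum fun p _ => h1 p
      _ = M s t * (θ / 2) + ((∑ p, (h p * q s t p) * (Ab p - ρ s t) ^ 2) +
          ∑ p, (h p * q s t p) * (Bb p - σ s t) ^ 2) / θ := by
          rw [Finset.sum_add_distrib, ← Finset.sum_mul, ← Finset.sum_div, Finset.sum_add_distrib]
      _ ≤ M s t * (θ / 2) + (C * (2 * C / T0) * M s t + C * (2 * C / T0) * M s t) / θ := by
          gcongr
      _ ≤ θ * M s t := by
          have h11 : 8 * C ^ 2 < T0 * θ ^ 2 := by
            rwa [div_lt_iff₀ (by positivity)] at hT0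
          exact const_ineq C T0 θ (M s t) hθ0 hT0pos (hMpos _ _).le h11
  have hyC : 1 / C ≤ y := by
    have h1 : y * M s t = ∑ p, (h p * q s t p) * (Ab p - Bb p) := by
      rw [hy, hρ, hσ]
      simp only
      rw [sub_mul, div_mul_cancel₀ _ (hMpos s t).ne', div_mul_cancel₀ _ (hMpos s t).ne', hMA, hMB,
        ← Finset.sum_sub_distrib]
      exact Finset.sum_congr rfl fun p _ => by ring
    have h2 : 1 / C * M s t ≤ y * M s t := by
      rw [h1, hM]
      simp only
      rw [Finset.mul_sum]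
      apply Finset.sum_le_sum
      intro p _
      rw [mul_comm (1 / C)]
      exact mul_le_mul_of_nonneg_left (hYb1 p) (mul_nonneg (hh0 p) (hq0 s t p).le)
    exact le_of_mul_le_mul_right h2 (hMpos _ _)
  -- the two comparisons
  set F1 : ℝ := ∑ p, c p * q s t p with hF1
  set G1 : ℝ := ∑ p, d p * q s t p with hG1
  set FY : ℝ := ∑ p, c p * q s t p * (Ab p - Bb p) with hFY
  set GY : ℝ := ∑ p, d p * q s t p * (Ab p - Bb p) with hGY
  have hMFG : M s t = F1 + G1 := by
    rw [hM, hF1, hG1, ← Finset.sum_add_distrib]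
    exact Finset.sum_congr rfl fun p _ => by simp only [hh]; ring
  have hF1nn : 0 ≤ F1 := Finset.sum_nonneg fun p _ => mul_nonneg (hc p) (hq0 s t p).le
  have hG1nn : 0 ≤ G1 := Finset.sum_nonneg fun p _ => mul_nonneg (hd p) (hq0 s t p).le
  have prodq : ∀ p, ∏ i : Fin (s + t), ((∑ j, (Fin.append (fun _ : Fin s => A) (fun _ : Fin t => B)
      : Fin (s + t) → Ω → Fin k → ℝ) i p j) / k) = q s t p := by
    intro p
    rw [Fin.prod_univ_add]
    simp [hq, hAb, hBb, div_pow]
  have hXAB : ∀ i : Fin (s + t), (Fin.append (fun _ : Fin s => A) (fun _ : Fin t => B)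
      : Fin (s + t) → Ω → Fin k → ℝ) i = A ∨ (Fin.append (fun _ : Fin s => A) (fun _ : Fin t => B)
      : Fin (s + t) → Ω → Fin k → ℝ) i = B := by
    intro i
    refine Fin.addCases (fun i => ?_) (fun i => ?_) i
    · left; simp
    · right; simp
  have cmp1 : κ * G1 ≤ F1 := by
    have h1 := sampling_compare (m := s + t) hk' K C (by linarith) hC c d hc hd
      (Fin.append (fun _ : Fin s => A) (fun _ : Fin t => B))
      (by intro i p j; rcases hXAB i with h | h <;> rw [h]; exacts [hA1 p j, hB1 p j])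
      (by intro i p j; rcases hXAB i with h | h <;> rw [h]; exacts [hA2 p j, hB2 p j])
      (fun l hl => H1 (s + t) l hl _ hXAB)
    simp only [prodq] at h1
    have h2 := hκbound (s + t) (by omega)
    calc κ * G1 ≤ (K * (1 - ((s + t : ℕ) : ℝ) ^ 2 / k * C ^ (2 * (s + t)))) * G1 :=
          mul_le_mul_of_nonneg_right h2 hG1nn
      _ ≤ F1 := h1
  have cmp2 : κ * FY ≤ GY := by
    set X : Fin (s + t + 1) → Ω → Fin k → ℝ :=
      Fin.cons (fun p j => A p j - B p j) (Fin.append (fun _ : Fin s => A) (fun _ : Fin t => B))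
      with hX
    have hX0 : X 0 = fun p j => A p j - B p j := by rw [hX]; rfl
    have hXs : ∀ i : Fin (s + t), X i.succ = A ∨ X i.succ = B := by
      intro i; rw [hX]; simpa using hXAB i
    have hXlo : ∀ i p j, 1 / C ≤ X i p j := by
      intro i p j
      refine Fin.cases ?_ (fun i => ?_) i
      · rw [hX0]; exact hY1 p j
      · rcases hXs i with h | h <;> rw [h]; exacts [hA1 p j, hB1 p j]
    have hXhi : ∀ i p j, X i p j ≤ C := by
      intro i p j
      refine Fin.cases ?_ (fun i => ?_) i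
      · rw [hX0]; exact hY2 p j
      · rcases hXs i with h | h <;> rw [h]; exacts [hA2 p j, hB2 p j]
    have h1 := sampling_compare (m := s + t + 1) hk' K C (by linarith) hC d c hd hc X hXlo hXhi
      (fun l hl => H2 (s + t) l hl X hX0 hXs)
    have prodX : ∀ p, ∏ i : Fin (s + t + 1), ((∑ j, X i p j) / k) = (Ab p - Bb p) * q s t p := by
      intro p
      rw [Fin.prod_univ_succ, hX0]
      have : ∏ i : Fin (s + t), ((∑ j, X i.succ p j) / k) = q s t p := by
        rw [← prodq p]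
        refine Finset.prod_congr rfl fun i _ => ?_
        rw [hX]; simp
      rw [this]
      simp only [Finset.sum_sub_distrib, sub_div, hAb, hBb]
    simp only [prodX] at h1
    have h2 := hκbound (s + t + 1) (by omega)
    have hFYnn : 0 ≤ FY := Finset.sum_nonneg fun p _ =>
      mul_nonneg (mul_nonneg (hc p) (hq0 s t p).le) (le_trans hinvC.le (hYb1 p))
    have h3 : ∑ p, c p * ((Ab p - Bb p) * q s t p) = FY :=
      Finset.sum_congr rfl fun p _ => by ring
    have h4 : ∑ p, d p * ((Ab p - Bb p) * q s t p) = GY :=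
      Finset.sum_congr rfl fun p _ => by ring
    rw [h3, h4] at h1
    calc κ * FY ≤ (K * (1 - ((s + t + 1 : ℕ) : ℝ) ^ 2 / k * C ^ (2 * (s + t + 1)))) * FY :=
          mul_le_mul_of_nonneg_right h2 hFYnn
      _ ≤ GY := h1
  have devF : y * F1 - θ * M s t ≤ FY := by
    have h1 : y * F1 - FY ≤ ∑ p, (h p * q s t p) * |(Ab p - Bb p) - y| := by
      have : y * F1 - FY = ∑ p, c p * q s t p * (y - (Ab p - Bb p)) := by
        rw [hF1, hFY, Finset.mul_sum, ← Finset.sum_sub_distrib]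
        exact Finset.sum_congr rfl fun p _ => by ring
      rw [this]
      apply Finset.sum_le_sum
      intro p _
      have a1 : y - (Ab p - Bb p) ≤ |(Ab p - Bb p) - y| := by
        rw [abs_sub_comm]; exact le_abs_self _
      have a2 : c p * q s t p ≤ h p * q s t p := by
        apply mul_le_mul_of_nonneg_right _ (hq0 s t p).le
        simp only [hh]; linarith [hd p]
      calc c p * q s t p * (y - (Ab p - Bb p)) ≤ c p * q s t p * |(Ab p - Bb p) - y| :=
            mul_le_mul_of_nonneg_left a1 (mul_nonneg (hc p) (hq0 s t p).le)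
        _ ≤ _ := mul_le_mul_of_nonneg_right a2 (abs_nonneg _)
    linarith
  have devG : GY ≤ y * G1 + θ * M s t := by
    have h1 : GY - y * G1 ≤ ∑ p, (h p * q s t p) * |(Ab p - Bb p) - y| := by
      have : GY - y * G1 = ∑ p, d p * q s t p * ((Ab p - Bb p) - y) := by
        rw [hG1, hGY, Finset.mul_sum, ← Finset.sum_sub_distrib]
        exact Finset.sum_congr rfl fun p _ => by ring
      rw [this]
      apply Finset.sum_le_sum
      intro p _
      have a1 : (Ab p - Bb p) - y ≤ |(Ab p - Bb p) - y| := le_abs_self _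
      have a2 : d p * q s t p ≤ h p * q s t p := by
        apply mul_le_mul_of_nonneg_right _ (hq0 s t p).le
        simp only [hh]; linarith [hc p]
      calc d p * q s t p * ((Ab p - Bb p) - y) ≤ d p * q s t p * |(Ab p - Bb p) - y| :=
            mul_le_mul_of_nonneg_left a1 (mul_nonneg (hd p) (hq0 s t p).le)
        _ ≤ _ := mul_le_mul_of_nonneg_right a2 (abs_nonneg _)
    linarith
  exact final_contra κ C y F1 G1 (M s t) FY GY θ hκ1 hC hyC hF1nn hG1nn (hMpos s t) hMFG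
    cmp1 cmp2 devF devG hθ

end Pool.Agent.MP_44310b
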