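import Mathlib

set_option autoImplicit false

namespace Pool.Agent.MP_44310b

open Finset Matrix

section
variable {V : Type} [Fintype V] [DecidableEq V]

/-- The matrix `1 - (functional graph of f)`. -/
def gMat (f : V → Option V) : Matrix V V ℝ :=
  fun v v' => (if v = v' then 1 else 0) - (if f v = some v' then 1 else 0)

lemma gMat_mulVec (f : V → Option V) (w : V → ℝ) (v : V) :
    (gMat f *ᵥ w) v = w v - (match f v with | some v' => w v' | none => 0) := by
  simp only [Matrix.mulVec, dotProduct, gMat, sub_mul, ite_mul, one_mul, zero_mul,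
    Finset.sum_sub_distrib]
  congr 1
  · simp
  · cases h : f v with
    | none => simp
    | some v' => simp

/-- If there is a nonempty closed set, both determinants vanish. -/
lemma det_zero_of_closed (f : V → Option V) (b : V → ℝ) (s : V) (S : Set V) (hne : S.Nonempty)
    (hS : ∀ v ∈ S, ∃ v' ∈ S, f v = some v') (hb : ∀ v ∈ S, b v = 0) :
    (gMat f).det = 0 ∧ ((gMat f).updateCol s b).det = 0 := by
  classical
  -- the restricted matrix is singular
  let N : Matrix S S ℝ := fun v v' => gMat f v v'
  have hN : N.det = 0 := by
    rw [← Matrix.exists_mulVec_eq_zero_iff]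
    refine ⟨fun _ => 1, ?_, ?_⟩
    · obtain ⟨x, hx⟩ := hne
      intro h
      have := congrFun h ⟨x, hx⟩
      simp at this
    · funext v
      obtain ⟨v', hv', hf⟩ := hS v v.2
      simp only [Matrix.mulVec, dotProduct, mul_one, N, gMat, Finset.sum_sub_distrib,
        Pi.zero_apply]
      rw [hf]
      have h1 : ∑ x : S, (if (v : V) = x then (1 : ℝ) else 0) = 1 := by
        rw [Finset.sum_eq_single v]
        · simp
        · intro x _ hx
          rw [if_neg]
          intro h
          exact hx (Subtype.ext h.symm)
        · simp
      have h2 : ∑ x : S, (if some v' = some (x : V) then (1 : ℝ) else 0) = 1 := by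
        rw [Finset.sum_eq_single ⟨v', hv'⟩]
        · simp
        · intro x _ hx
          rw [if_neg]
          intro h
          apply hx
          apply Subtype.ext
          exact (Option.some.inj h).symm
        · simp
      rw [h1, h2]
      ring
  rw [← Matrix.exists_vecMul_eq_zero_iff] at hN
  obtain ⟨y, hy0, hy⟩ := hN
  let z : V → ℝ := fun v => if h : v ∈ S then y ⟨v, h⟩ else 0
  have hz0 : z ≠ 0 := by
    intro h
    apply hy0
    funext x
    have := congrFun h x
    simpa [z] using this
  have hsum : ∀ g : V → ℝ, ∑ v : S, y v * g v = ∑ v, z v * g v := by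
    intro g
    apply Fintype.sum_of_injective (fun v : S => (v : V)) Subtype.val_injective
    · intro v hv
      have : v ∉ S := by
        intro h; exact hv ⟨⟨v, h⟩, rfl⟩
      simp [z, this]
    · intro v
      simp [z]
  have hzero : ∀ v', ∑ v, z v * gMat f v v' = 0 := by
    intro v'
    rw [← hsum]
    by_cases hv' : v' ∈ S
    · have := congrFun hy ⟨v', hv'⟩
      simpa [Matrix.vecMul, dotProduct, N] using this
    · apply Finset.sum_eq_zero
      intro v _
      obtain ⟨x, hx, hfx⟩ := hS v v.2
      have h1 : (v : V) ≠ v' := fun h => hv' (h ▸ v.2)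
      have h2 : x ≠ v' := fun h => hv' (h ▸ hx)
      simp [gMat, h1, hfx, h2]
  constructor
  · rw [← Matrix.exists_vecMul_eq_zero_iff]
    refine ⟨z, hz0, ?_⟩
    funext v'
    simpa [Matrix.vecMul, dotProduct] using hzero v'
  · rw [← Matrix.exists_vecMul_eq_zero_iff]
    refine ⟨z, hz0, ?_⟩
    funext v'
    simp only [Matrix.vecMul, dotProduct, Matrix.updateCol_apply, Pi.zero_apply]
    by_cases h : v' = s
    · simp only [h, if_true]
      apply Finset.sum_eq_zero
      intro v _
      by_cases hv : v ∈ S
      · rw [hb v hv, mul_zero]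
      · simp [z, hv]
    · simp only [h, if_false]
      exact hzero v'

/-- With a rank function that decreases along `f`, the determinant is one. -/
lemma det_one_of_rank (f : V → Option V) (ρ : V → ℕ)
    (hρ : ∀ v v', f v = some v' → ρ v' < ρ v) : (gMat f).det = 1 := by
  classical
  have hbt : (gMat f).BlockTriangular (OrderDual.toDual ∘ ρ) := by
    intro i j hij
    simp only [Function.comp, OrderDual.toDual_lt_toDual] at hij
    have h1 : i ≠ j := by rintro rfl; exact lt_irrefl _ hij
    have h2 : f i ≠ some j := fun h => by
      have := hρ i j h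
      omega
    simp [gMat, h1, h2]
  rw [hbt.det]
  apply Finset.prod_eq_one
  intro a _
  have : (gMat f).toSquareBlock (OrderDual.toDual ∘ ρ) a = 1 := by
    ext i j
    simp only [Matrix.toSquareBlock_def, Matrix.of_apply, gMat]
    have h2 : f i ≠ some (j : V) := fun h => by
      have h3 := hρ i j h
      have h4 : ρ i = ρ j := by
        have h5 := i.2
        have h6 := j.2
        simp only [Function.comp] at h5 h6
        exact OrderDual.toDual.injective (h5.trans h6.symm)
      omega
    rw [if_neg h2, sub_zero, Matrix.one_apply]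
    by_cases h : i = j
    · simp [h]
    · rw [if_neg h, if_neg (fun h' => h (Subtype.ext h'))]
  rw [this, Matrix.det_one]

/-- The states whose orbit under `f` ends within `n` steps. -/
def dieSet (f : V → Option V) : ℕ → Set V
  | 0 => ∅
  | n + 1 => {v | ∀ v', f v = some v' → v' ∈ dieSet f n}

/-- Either there is a nonempty closed set or a decreasing rank. -/
lemma closed_or_rank (f : V → Option V) :
    (∃ S : Set V, S.Nonempty ∧ ∀ v ∈ S, ∃ v' ∈ S, f v = some v') ∨
    (∃ ρ : V → ℕ, ∀ v v', f v = some v' → ρ v' < ρ v) := by
  classical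
  by_cases h : ∃ v, ∀ n, v ∉ dieSet f n
  · left
    refine ⟨{v | ∀ n, v ∉ dieSet f n}, h, ?_⟩
    intro v hv
    have h1 : v ∉ dieSet f 1 := hv 1
    simp only [dieSet, Set.mem_ofPred_eq, not_forall] at h1
    obtain ⟨v', hv', -⟩ := h1
    refine ⟨v', ?_, hv'⟩
    intro n hn
    apply hv (n + 1)
    intro v'' hv''
    rw [hv'] at hv''
    cases hv''
    exact hn
  · right
    push Not at h
    refine ⟨fun v => Nat.find (h v), ?_⟩
    intro v v' hv
    have h1 : v ∈ dieSet f (Nat.find (h v)) := Nat.find_spec (h v)
    rcases Nat.eq_zero_or_eq_succ_pred (Nat.find (h v)) with h2 | h2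
    · rw [h2] at h1
      exact absurd h1 (Set.notMem_empty v)
    · rw [h2] at h1
      have h3 : v' ∈ dieSet f ((Nat.find (h v)).pred) := h1 v' hv
      have h4 : Nat.find (h v') ≤ (Nat.find (h v)).pred := Nat.find_min' _ h3
      show Nat.find (h v') < Nat.find (h v)
      omega

/-- The two determinants of a functional graph satisfy `0 ≤ num ≤ den`. -/
lemma gMat_bounds (f : V → Option V) (b : V → ℝ) (s : V) (hb0 : ∀ v, 0 ≤ b v)
    (hb1 : ∀ v, b v ≤ 1) (hb : ∀ v v', f v = some v' → b v = 0) :
    0 ≤ ((gMat f).updateCol s b).det ∧ ((gMat f).updateCol s b).det ≤ (gMat f).det := by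
  classical
  rcases closed_or_rank f with ⟨S, hne, hS⟩ | ⟨ρ, hρ⟩
  · have := det_zero_of_closed f b s S hne hS (fun v hv => by
      obtain ⟨v', _, hv'⟩ := hS v hv
      exact hb v v' hv')
    rw [this.1, this.2]
    exact ⟨le_refl _, le_refl _⟩
  · have h1 := det_one_of_rank f ρ hρ
    rw [h1, ← Matrix.cramer_apply]
    set w := (gMat f).cramer b with hw
    have h2 : gMat f *ᵥ w = b := by
      rw [hw, Matrix.mulVec_cramer, h1, one_smul]
    have h3 : ∀ n v, ρ v < n → 0 ≤ w v ∧ w v ≤ 1 := by
      intro n
      induction n with
      | zero => intro v hv; omega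
      | succ n ih =>
        intro v hv
        have h4 := congrFun h2 v
        rw [gMat_mulVec] at h4
        cases hf : f v with
        | none =>
          rw [hf] at h4
          simp only [sub_zero] at h4
          rw [h4]
          exact ⟨hb0 v, hb1 v⟩
        | some v' =>
          rw [hf] at h4
          simp only at h4
          rw [hb v v' hf] at h4
          have h5 : w v = w v' := by linarith
          rw [h5]
          exact ih v' (by have := hρ v v' hf; omega)
    exact h3 (ρ s + 1) s (by omega)

variable {O : Type} [Fintype O] [DecidableEq O]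

/-- The value of an outcome, given values `u` of the states: an outcome leads to a state or is
absorbing, and in the latter case it is worth `a v o`. -/
def outVal (tgt : V → O → Option V) (a : V → O → ℝ) (u : V → ℝ) (v : V) (o : O) : ℝ :=
  match tgt v o with
  | some v' => u v'
  | none => a v o

/-- Markov chain tree formula in the form we need it. -/
theorem tree_formula (tgt : V → O → Option V) (a : V → O → ℝ) (s : V)
    (ha0 : ∀ v o, 0 ≤ a v o) (ha1 : ∀ v o, a v o ≤ 1)
    (ha : ∀ v o v', tgt v o = some v' → a v o = 0) :
    ∃ eF eG : (V → O) → ℝ, (∀ h, 0 ≤ eF h) ∧ (∀ h, 0 ≤ eG h) ∧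
      (∀ (P : V → O → ℝ), (∀ v, ∑ o, P v o = 1) → ∀ u : V → ℝ,
        (∀ v, u v = ∑ o, P v o * outVal tgt a u v o) →
        ∑ h : V → O, eF h * ∏ v, P v (h v)
          = u s * ∑ h : V → O, (eF h + eG h) * ∏ v, P v (h v)) ∧
      (∀ h : V → O, ∀ ρ : V → ℕ, (∀ v v', tgt v (h v) = some v' → ρ v' < ρ v) →
        0 < eF h + eG h) := by
  classical
  let f : (V → O) → V → Option V := fun h v => tgt v (h v)
  let b : (V → O) → V → ℝ := fun h v => a v (h v)
  refine ⟨fun h => ((gMat (f h)).updateCol s (b h)).det,
    fun h => (gMat (f h)).det - ((gMat (f h)).updateCol s (b h)).det, ?_, ?_, ?_, ?_⟩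
  · intro h
    exact (gMat_bounds (f h) (b h) s (fun v => ha0 _ _) (fun v => ha1 _ _)
      (fun v v' hv => ha _ _ _ hv)).1
  · intro h
    have := (gMat_bounds (f h) (b h) s (fun v => ha0 _ _) (fun v => ha1 _ _)
      (fun v v' hv => ha _ _ _ hv)).2
    simpa using this
  · intro P hP u hu
    -- the matrix `1 - T`
    let R : V → O → V → ℝ := fun v o v' =>
      (if v = v' then 1 else 0) - (if tgt v o = some v' then 1 else 0)
    let A : Matrix V V ℝ := fun v => ∑ o, P v o • R v o
    let B : V → ℝ := fun v => ∑ o, P v o * a v o
    have hA : A.det = ∑ h : V → O, (gMat (f h)).det * ∏ v, P v (h v) := by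
      have h1 : A.det = Matrix.detRowAlternating.toMultilinearMap
          (fun v => ∑ o, P v o • R v o) := rfl
      rw [h1, MultilinearMap.map_sum]
      refine Finset.sum_congr rfl fun h _ => ?_
      rw [MultilinearMap.map_smul_univ, smul_eq_mul, mul_comm]
      rfl
    have hB : (A.updateCol s B).det
        = ∑ h : V → O, ((gMat (f h)).updateCol s (b h)).det * ∏ v, P v (h v) := by
      have h0 : A.updateCol s B = fun v => ∑ o, P v o • (Function.update (R v o) s (a v o)) := by
        funext v v'
        rw [Matrix.updateCol_apply]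
        simp only [Finset.sum_apply, Pi.smul_apply, smul_eq_mul, Function.update_apply]
        by_cases h : v' = s
        · simp [h, B]
        · simp [h, A, Finset.sum_apply]
      have h1 : (A.updateCol s B).det = Matrix.detRowAlternating.toMultilinearMap
          (fun v => ∑ o, P v o • (Function.update (R v o) s (a v o))) := by
        rw [h0]; rfl
      rw [h1, MultilinearMap.map_sum]
      refine Finset.sum_congr rfl fun h _ => ?_
      rw [MultilinearMap.map_smul_univ, smul_eq_mul, mul_comm]
      congr 1
    have hAu : A *ᵥ u = B := by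
      funext v
      have h1 : (A *ᵥ u) v = ∑ o, P v o * (u v - (match tgt v o with
          | some v' => u v' | none => 0)) := by
        simp only [Matrix.mulVec, dotProduct, A, Finset.sum_apply, Pi.smul_apply, smul_eq_mul,
          Finset.sum_mul]
        rw [Finset.sum_comm]
        refine Finset.sum_congr rfl fun o _ => ?_
        simp only [mul_assoc, ← Finset.mul_sum]
        congr 1
        simp only [R, sub_mul, ite_mul, one_mul, zero_mul, Finset.sum_sub_distrib]
        cases h : tgt v o with
        | none => simp
        | some v' => simp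
      rw [h1]
      simp only [mul_sub, Finset.sum_sub_distrib, ← Finset.sum_mul, hP v, one_mul]
      have h2 := hu v
      have h3 : ∑ o, P v o * outVal tgt a u v o
          = (∑ o, P v o * (match tgt v o with | some v' => u v' | none => 0)) + B v := by
        rw [← Finset.sum_add_distrib]
        refine Finset.sum_congr rfl fun o _ => ?_
        rw [← mul_add]
        congr 1
        unfold outVal
        cases h : tgt v o with
        | none => simp
        | some v' => simp [ha v o v' h]
      linarith
    have hcr : (A.updateCol s B).det = u s * A.det := by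
      rw [← Matrix.cramer_apply, Matrix.cramer_eq_adjugate_mulVec, ← hAu, Matrix.mulVec_mulVec,
        Matrix.adjugate_mul, Matrix.smul_mulVec, Matrix.one_mulVec]
      simp [mul_comm]
    rw [hB, hA] at hcr
    rw [hcr]
    congr 1
    refine Finset.sum_congr rfl fun h _ => ?_
    ring
  · intro h ρ hρ
    have := det_one_of_rank (f h) ρ hρ
    simp only
    linarith

end
end Pool.Agent.MP_44310b
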