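import Mathlib
import Pool.Agent.Lib.MP_44310b_lc.Det

set_option autoImplicit false

namespace Pool.Agent.MP_44310b

open Finset

section
variable {V O : Type} [Fintype V] [DecidableEq V] [Fintype O] [DecidableEq O]

/-- Absorption can be reached within `n` steps along the support `Sup`. -/
def GoodN (tgt : V → O → Option V) (Sup : V → O → Prop) : ℕ → V → Prop
  | 0, _ => False
  | n + 1, v => ∃ o, Sup v o ∧ ∀ v', tgt v o = some v' → GoodN tgt Sup n v'

/-- Absorption can be reached along the support. -/
def Good (tgt : V → O → Option V) (Sup : V → O → Prop) (v : V) : Prop :=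
  ∃ n, GoodN tgt Sup n v

omit [Fintype V] [DecidableEq V] [Fintype O] [DecidableEq O] in
lemma good_of_none (tgt : V → O → Option V) (Sup : V → O → Prop) (v : V) (o : O)
    (h : Sup v o) (h2 : tgt v o = none) : Good tgt Sup v :=
  ⟨1, o, h, fun v' hv' => by rw [h2] at hv'; cases hv'⟩

omit [Fintype V] [DecidableEq V] [Fintype O] [DecidableEq O] in
lemma good_of_some (tgt : V → O → Option V) (Sup : V → O → Prop) (v v' : V) (o : O)
    (h : Sup v o) (h2 : tgt v o = some v') (h3 : Good tgt Sup v') : Good tgt Sup v := by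
  obtain ⟨n, hn⟩ := h3
  refine ⟨n + 1, o, h, fun v'' hv'' => ?_⟩
  rw [h2] at hv''
  cases hv''
  exact hn

open Classical in
/-- Rows of states that cannot reach absorption are replaced by the absorbing outcome `z`. -/
noncomputable def modP (tgt : V → O → Option V) (z : O) (Sup : V → O → Prop) (P : V → O → ℝ)
    (v : V) (o : O) : ℝ :=
  if Good tgt Sup v then P v o else if o = z then 1 else 0

theorem chain_formula (tgt : V → O → Option V) (a : V → O → ℝ) (s : V) (z : O)
    (ha0 : ∀ v o, 0 ≤ a v o) (ha1 : ∀ v o, a v o ≤ 1)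
    (ha : ∀ v o v', tgt v o = some v' → a v o = 0)
    (hz : ∀ v, tgt v z = none) (haz : ∀ v, a v z = 0) (Sup : V → O → Prop) :
    ∃ eF eG : (V → O) → ℝ, (∀ h, 0 ≤ eF h) ∧ (∀ h, 0 ≤ eG h) ∧
      ∀ P : V → O → ℝ, (∀ v o, 0 ≤ P v o) → (∀ v, ∑ o, P v o = 1) →
        (∀ v o, Sup v o ↔ 0 < P v o) → ∀ u : V → ℝ,
        (∀ v, u v = ∑ o, P v o * outVal tgt a u v o) →
        (∀ v, ¬ Good tgt Sup v → u v = 0) →
        (∑ h : V → O, eF h * ∏ v, modP tgt z Sup P v (h v)
          = u s * ∑ h : V → O, (eF h + eG h) * ∏ v, modP tgt z Sup P v (h v)) ∧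
        0 < ∑ h : V → O, (eF h + eG h) * ∏ v, modP tgt z Sup P v (h v) := by
  classical
  obtain ⟨eF, eG, hF, hG, hform, hpos⟩ := tree_formula tgt a s ha0 ha1 ha
  refine ⟨eF, eG, hF, hG, ?_⟩
  intro P hP0 hP1 hSup u hu hu0
  have hm0 : ∀ v o, 0 ≤ modP tgt z Sup P v o := by
    intro v o
    unfold modP
    split_ifs
    · exact hP0 v o
    · exact zero_le_one
    · exact le_refl _
  constructor
  · apply hform
    · intro v
      unfold modP
      by_cases hv : Good tgt Sup v
      · simp only [hv, if_true]; exact hP1 v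
      · simp [hv]
    · intro v
      unfold modP
      by_cases hv : Good tgt Sup v
      · simp only [hv, if_true]; exact hu v
      · simp only [hv, if_false, ite_mul, one_mul, zero_mul, Finset.sum_ite_eq', Finset.mem_univ,
          if_true]
        rw [hu0 v hv]
        unfold outVal
        rw [hz v]
        exact (haz v).symm
  · -- a good choice function
    let ρ : V → ℕ := fun v => if hv : Good tgt Sup v then Nat.find hv else 0
    have hex : ∀ v, ∃ o, 0 < modP tgt z Sup P v o ∧ ∀ v', tgt v o = some v' → ρ v' < ρ v := by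
      intro v
      by_cases hv : Good tgt Sup v
      · have h1 : GoodN tgt Sup (Nat.find hv) v := Nat.find_spec hv
        rcases Nat.eq_zero_or_eq_succ_pred (Nat.find hv) with h2 | h2
        · rw [h2] at h1
          exact h1.elim
        · rw [h2] at h1
          obtain ⟨o, ho, ho2⟩ := h1
          refine ⟨o, ?_, ?_⟩
          · unfold modP
            rw [if_pos hv]
            exact (hSup v o).1 ho
          · intro v' hv'
            have h3 := ho2 v' hv'
            have h4 : Good tgt Sup v' := ⟨_, h3⟩
            have h5 : Nat.find h4 ≤ (Nat.find hv).pred := Nat.find_min' _ h3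
            simp only [ρ, dif_pos h4, dif_pos hv]
            omega
      · refine ⟨z, ?_, ?_⟩
        · unfold modP
          rw [if_neg hv, if_pos rfl]
          exact one_pos
        · intro v' hv'
          rw [hz v] at hv'
          cases hv'
    choose h0 hh0 hh1 using hex
    apply Finset.sum_pos'
    · intro h _
      exact mul_nonneg (add_nonneg (hF h) (hG h)) (Finset.prod_nonneg fun v _ => hm0 _ _)
    · refine ⟨h0, Finset.mem_univ _, ?_⟩
      exact mul_pos (hpos h0 ρ hh1) (Finset.prod_pos fun v _ => hh0 v)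

end
end Pool.Agent.MP_44310b
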