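import Mathlib

set_option autoImplicit false

namespace Pool.Agent.MP_44310b

/-- The input alphabet: opening and closing parenthesis. -/
inductive Paren
  | op
  | cl
  deriving DecidableEq

/-- Tape symbols: left endmarker, right endmarker, or a letter of the input alphabet. -/
inductive Sym (A : Type)
  | leftEnd
  | rightEnd
  | letter (a : A)

/-- Head moves: left, stay, right. -/
inductive Move
  | left
  | stay
  | right
  deriving DecidableEq

instance : Fintype Move where
  elems := {.left, .stay, .right}
  complete := by intro m; cases m <;> simp

/-- Displacement of the head for a move. -/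
def Move.shift : Move → ℤ
  | .left => -1
  | .stay => 0
  | .right => 1

/-- A two-way probabilistic finite automaton over the input alphabet `A` with finite state set `Q`.
`tr q s q' m` is the probability of going to state `q'` and moving the head by `m`, when the
current state is `q` and the scanned symbol is `s`. The head never moves left from the left
endmarker nor right from the right endmarker. `acc` and `rej` are the accepting and rejecting
halting states. -/
structure TwoPFA (A : Type) (Q : Type) [Fintype Q] where
  start : Q
  acc : Q → Prop
  rej : Q → Prop
  disj : ∀ q, ¬ (acc q ∧ rej q)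
  tr : Q → Sym A → Q → Move → ℝ
  tr_nonneg : ∀ q s q' m, 0 ≤ tr q s q' m
  tr_sum : ∀ q s, ∑ q' : Q, ∑ m : Move, tr q s q' m = 1
  no_left : ∀ q q', tr q .leftEnd q' .left = 0
  no_right : ∀ q q', tr q .rightEnd q' .right = 0

/-- The tape holding the input `x`: the left endmarker at position `0` (and, irrelevantly, at
negative positions), the letters of `x` at positions `1, ..., |x|`, and the right endmarker at
position `|x| + 1` (and, irrelevantly, further to the right). -/
def inputTape {A : Type} (x : List A) (i : ℤ) : Sym A :=
  if i ≤ 0 then .leftEnd
  else match x[(i - 1).toNat]? with
    | some a => .letter a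
    | none => .rightEnd

open Classical in
/-- `accWithin M τ t q i` is the probability that `M`, started in state `q` with the head at
position `i` of the tape `τ`, is in an accepting halting state after at most `t` steps. -/
noncomputable def accWithin {A Q : Type} [Fintype Q] (M : TwoPFA A Q) (τ : ℤ → Sym A) :
    ℕ → Q → ℤ → ℝ
  | 0, q, _ => if M.acc q then 1 else 0
  | t + 1, q, i =>
      if M.acc q then 1
      else if M.rej q then 0
      else ∑ q' : Q, ∑ m : Move, M.tr q (τ i) q' m * accWithin M τ t q' (i + m.shift)

/-- The probability that `M` on input `x` halts in an accepting state (no bound on the running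
time): the supremum, i.e. the limit, over `t` of the probability to have accepted within `t`
steps. The computation starts in the start state with the head on the left endmarker. -/
noncomputable def acceptProb {A Q : Type} [Fintype Q] (M : TwoPFA A Q) (x : List A) : ℝ :=
  ⨆ t : ℕ, accWithin M (inputTape x) t M.start 0

/-- `M` accepts the language `L` with bounded error. -/
def AcceptsBoundedError {A Q : Type} [Fintype Q] (M : TwoPFA A Q) (L : Set (List A)) : Prop :=
  ∃ ε : ℝ, ε < 1 / 2 ∧ ∀ x : List A,
    (x ∈ L → 1 - ε ≤ acceptProb M x) ∧ (x ∉ L → acceptProb M x ≤ ε)

/-- The language of balanced parenthesis strings. -/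
def Lbal : Set (List Paren) :=
  {w | w.count .op = w.count .cl ∧ ∀ u, u <+: w → u.count .cl ≤ u.count .op}

end Pool.Agent.MP_44310b
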