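import Mathlib
import Pool.Agent.Lib.MP_44310b_lc.Defs

set_option autoImplicit false

namespace Pool.Agent.MP_44310b

open Finset Filter Topology

section
variable {A Q : Type} [Fintype Q] (M : TwoPFA A Q)

lemma tr_nonneg_sum (q : Q) (s : Sym A) (g : Q → Move → ℝ) (hg : ∀ q' m, 0 ≤ g q' m) :
    0 ≤ ∑ q' : Q, ∑ m : Move, M.tr q s q' m * g q' m :=
  Finset.sum_nonneg fun q' _ => Finset.sum_nonneg fun m _ => mul_nonneg (M.tr_nonneg _ _ _ _) (hg _ _)

lemma tr_sum_le (q : Q) (s : Sym A) (g g' : Q → Move → ℝ) (hg : ∀ q' m, g q' m ≤ g' q' m) :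
    ∑ q' : Q, ∑ m : Move, M.tr q s q' m * g q' m ≤ ∑ q' : Q, ∑ m : Move, M.tr q s q' m * g' q' m :=
  Finset.sum_le_sum fun q' _ => Finset.sum_le_sum fun m _ =>
    mul_le_mul_of_nonneg_left (hg _ _) (M.tr_nonneg _ _ _ _)

lemma tr_sum_const (q : Q) (s : Sym A) (c : ℝ) :
    ∑ q' : Q, ∑ m : Move, M.tr q s q' m * c = c := by
  simp only [← Finset.sum_mul]
  rw [M.tr_sum, one_mul]

lemma accWithin_nonneg (τ : ℤ → Sym A) (t : ℕ) (q : Q) (i : ℤ) : 0 ≤ accWithin M τ t q i := by
  classical
  induction t generalizing q i with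
  | zero => unfold accWithin; split_ifs <;> norm_num
  | succ t ih =>
    unfold accWithin
    split_ifs
    · norm_num
    · norm_num
    · exact tr_nonneg_sum M q (τ i) _ (fun q' m => ih q' _)

lemma accWithin_le_one (τ : ℤ → Sym A) (t : ℕ) (q : Q) (i : ℤ) : accWithin M τ t q i ≤ 1 := by
  classical
  induction t generalizing q i with
  | zero => unfold accWithin; split_ifs <;> norm_num
  | succ t ih =>
    unfold accWithin
    split_ifs
    · norm_num
    · norm_num
    · calc _ ≤ ∑ q' : Q, ∑ m : Move, M.tr q (τ i) q' m * 1 := tr_sum_le M q (τ i) _ _ (fun q' m => ih q' _)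
        _ = 1 := tr_sum_const M q (τ i) 1

lemma accWithin_succ_le (τ : ℤ → Sym A) (t : ℕ) (q : Q) (i : ℤ) :
    accWithin M τ t q i ≤ accWithin M τ (t + 1) q i := by
  classical
  induction t generalizing q i with
  | zero =>
    by_cases h : M.acc q
    · simp [accWithin, h]
    · have : accWithin M τ 0 q i = 0 := by simp [accWithin, h]
      rw [this]
      exact accWithin_nonneg M τ 1 q i
  | succ t ih =>
    rw [accWithin, accWithin]
    split_ifs
    · exact le_refl _
    · exact le_refl _
    · exact tr_sum_le M q (τ i) _ _ (fun q' m => ih q' _)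

lemma accWithin_mono (τ : ℤ → Sym A) (q : Q) (i : ℤ) :
    Monotone (fun t => accWithin M τ t q i) :=
  monotone_nat_of_le_succ fun t => accWithin_succ_le M τ t q i

/-- Limit acceptance probability from a configuration. -/
noncomputable def accLim (τ : ℤ → Sym A) (q : Q) (i : ℤ) : ℝ := ⨆ t, accWithin M τ t q i

lemma accWithin_bdd (τ : ℤ → Sym A) (q : Q) (i : ℤ) :
    BddAbove (Set.range fun t => accWithin M τ t q i) :=
  ⟨1, by rintro _ ⟨t, rfl⟩; exact accWithin_le_one M τ t q i⟩

lemma accWithin_le_accLim (τ : ℤ → Sym A) (t : ℕ) (q : Q) (i : ℤ) :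
    accWithin M τ t q i ≤ accLim M τ q i := le_ciSup (accWithin_bdd M τ q i) t

lemma accLim_nonneg (τ : ℤ → Sym A) (q : Q) (i : ℤ) : 0 ≤ accLim M τ q i :=
  le_trans (accWithin_nonneg M τ 0 q i) (accWithin_le_accLim M τ 0 q i)

lemma accLim_le_one (τ : ℤ → Sym A) (q : Q) (i : ℤ) : accLim M τ q i ≤ 1 :=
  ciSup_le fun t => accWithin_le_one M τ t q i

lemma accWithin_tendsto (τ : ℤ → Sym A) (q : Q) (i : ℤ) :
    Tendsto (fun t => accWithin M τ t q i) atTop (𝓝 (accLim M τ q i)) :=
  tendsto_atTop_ciSup (accWithin_mono M τ q i) (accWithin_bdd M τ q i)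

/-- Outcomes of a visit to a block: exit in a state on a side (`true` = right), or
halting inside: `inr true` = accepting, `inr false` = rejecting (or looping for ever). -/
abbrev Outc (Q : Type) := (Q × Bool) ⊕ Bool

open Classical in
/-- The outcome already reached by a configuration relative to a block of length `n`. -/
noncomputable def term (n : ℕ) (q : Q) (i : ℤ) : Option (Outc Q) :=
  if i < 0 then some (Sum.inl (q, false))
  else if (n : ℤ) ≤ i then some (Sum.inl (q, true))
  else if M.acc q then some (Sum.inr true)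
  else if M.rej q then some (Sum.inr false)
  else none

open Classical in
/-- Probability to have reached the outcome `o` within `t` steps, on a block of length `n` all of
whose cells hold the symbol `σ`. -/
noncomputable def reachW (σ : Sym A) (n : ℕ) : ℕ → Q → ℤ → Outc Q → ℝ
  | 0, q, i, o => if term M n q i = some o then 1 else 0
  | t + 1, q, i, o =>
      match term M n q i with
      | some o' => if o' = o then 1 else 0
      | none => ∑ q' : Q, ∑ m : Move, M.tr q σ q' m * reachW σ n t q' (i + m.shift) o

lemma reachW_of_some (σ : Sym A) (n : ℕ) (t : ℕ) (q : Q) (i : ℤ) (o o' : Outc Q)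
    (h : term M n q i = some o') [Decidable (o' = o)] :
    reachW M σ n t q i o = if o' = o then 1 else 0 := by
  classical
  cases t with
  | zero => by_cases h2 : o' = o <;> simp [reachW, h, h2]
  | succ t => by_cases h2 : o' = o <;> simp [reachW, h, h2]

lemma reachW_succ_none (σ : Sym A) (n : ℕ) (t : ℕ) (q : Q) (i : ℤ) (o : Outc Q)
    (h : term M n q i = none) :
    reachW M σ n (t + 1) q i o
      = ∑ q' : Q, ∑ m : Move, M.tr q σ q' m * reachW M σ n t q' (i + m.shift) o := by
  simp only [reachW, h]

lemma reachW_zero_none (σ : Sym A) (n : ℕ) (q : Q) (i : ℤ) (o : Outc Q)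
    (h : term M n q i = none) : reachW M σ n 0 q i o = 0 := by
  simp [reachW, h]

lemma reachW_nonneg (σ : Sym A) (n : ℕ) (t : ℕ) (q : Q) (i : ℤ) (o : Outc Q) :
    0 ≤ reachW M σ n t q i o := by
  classical
  induction t generalizing q i with
  | zero => simp only [reachW]; split_ifs <;> norm_num
  | succ t ih =>
    cases h : term M n q i with
    | some o' => rw [reachW_of_some M σ n _ q i o o' h]; split_ifs <;> norm_num
    | none =>
      rw [reachW_succ_none M σ n t q i o h]
      exact tr_nonneg_sum M q σ _ (fun q' m => ih q' _)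

lemma reachW_succ_le (σ : Sym A) (n : ℕ) (t : ℕ) (q : Q) (i : ℤ) (o : Outc Q) :
    reachW M σ n t q i o ≤ reachW M σ n (t + 1) q i o := by
  classical
  induction t generalizing q i with
  | zero =>
    cases h : term M n q i with
    | some o' => rw [reachW_of_some M σ n _ q i o o' h, reachW_of_some M σ n _ q i o o' h]
    | none =>
      rw [reachW_zero_none M σ n q i o h]
      exact reachW_nonneg _ _ _ _ _ _ _
  | succ t ih =>
    cases h : term M n q i with
    | some o' => rw [reachW_of_some M σ n _ q i o o' h, reachW_of_some M σ n _ q i o o' h]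
    | none =>
      rw [reachW_succ_none M σ n t q i o h, reachW_succ_none M σ n (t + 1) q i o h]
      exact tr_sum_le M q σ _ _ (fun q' m => ih q' _)

lemma reachW_mono (σ : Sym A) (n : ℕ) (q : Q) (i : ℤ) (o : Outc Q) :
    Monotone (fun t => reachW M σ n t q i o) :=
  monotone_nat_of_le_succ fun t => reachW_succ_le M σ n t q i o

lemma reachW_sum_le [DecidableEq Q] (σ : Sym A) (n : ℕ) (t : ℕ) (q : Q) (i : ℤ) :
    ∑ o, reachW M σ n t q i o ≤ 1 := by
  classical
  induction t generalizing q i with
  | zero =>
    cases h : term M n q i with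
    | some o' => simp [reachW_of_some M σ n _ q i _ o' h]
    | none => simp [reachW_zero_none M σ n q i _ h]
  | succ t ih =>
    cases h : term M n q i with
    | some o' => simp [reachW_of_some M σ n _ q i _ o' h]
    | none =>
      simp only [reachW_succ_none M σ n t q i _ h]
      rw [Finset.sum_comm]
      calc ∑ q' : Q, ∑ o : Outc Q, ∑ m : Move, M.tr q σ q' m * reachW M σ n t q' (i + m.shift) o
          = ∑ q' : Q, ∑ m : Move, M.tr q σ q' m * ∑ o : Outc Q, reachW M σ n t q' (i + m.shift) o := by
            refine Finset.sum_congr rfl fun q' _ => ?_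
            rw [Finset.sum_comm]
            refine Finset.sum_congr rfl fun m _ => ?_
            rw [Finset.mul_sum]
        _ ≤ ∑ q' : Q, ∑ m : Move, M.tr q σ q' m * 1 := tr_sum_le M q σ _ _ (fun q' m => ih q' _)
        _ = 1 := tr_sum_const M q σ 1

lemma reachW_le_one (σ : Sym A) (n : ℕ) (t : ℕ) (q : Q) (i : ℤ) (o : Outc Q) :
    reachW M σ n t q i o ≤ 1 := by
  classical
  refine le_trans ?_ (reachW_sum_le M σ n t q i)
  exact Finset.single_le_sum (f := fun o => reachW M σ n t q i o)
    (fun o _ => reachW_nonneg M σ n t q i o) (Finset.mem_univ o)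

/-- Limit outcome probabilities. -/
noncomputable def reachL (σ : Sym A) (n : ℕ) (q : Q) (i : ℤ) (o : Outc Q) : ℝ :=
  ⨆ t, reachW M σ n t q i o

lemma reachW_bdd (σ : Sym A) (n : ℕ) (q : Q) (i : ℤ) (o : Outc Q) :
    BddAbove (Set.range fun t => reachW M σ n t q i o) :=
  ⟨1, by rintro _ ⟨t, rfl⟩; exact reachW_le_one M σ n t q i o⟩

lemma reachW_le_reachL (σ : Sym A) (n : ℕ) (t : ℕ) (q : Q) (i : ℤ) (o : Outc Q) :
    reachW M σ n t q i o ≤ reachL M σ n q i o := le_ciSup (reachW_bdd M σ n q i o) t

lemma reachL_nonneg (σ : Sym A) (n : ℕ) (q : Q) (i : ℤ) (o : Outc Q) :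
    0 ≤ reachL M σ n q i o :=
  le_trans (reachW_nonneg M σ n 0 q i o) (reachW_le_reachL M σ n 0 q i o)

lemma reachW_tendsto (σ : Sym A) (n : ℕ) (q : Q) (i : ℤ) (o : Outc Q) :
    Tendsto (fun t => reachW M σ n t q i o) atTop (𝓝 (reachL M σ n q i o)) :=
  tendsto_atTop_ciSup (reachW_mono M σ n q i o) (reachW_bdd M σ n q i o)

lemma reachL_sum_le [DecidableEq Q] (σ : Sym A) (n : ℕ) (q : Q) (i : ℤ) :
    ∑ o, reachL M σ n q i o ≤ 1 :=
  le_of_tendsto (tendsto_finsetSum _ fun o _ => reachW_tendsto M σ n q i o)
    (Eventually.of_forall fun t => reachW_sum_le M σ n t q i)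

/-- A head entering a block of left endmarkers cannot exit to the left. -/
lemma reachW_no_left (n : ℕ) (t : ℕ) (q q' : Q) (i : ℤ) (hi : 0 ≤ i) :
    reachW M .leftEnd n t q i (Sum.inl (q', false)) = 0 := by
  classical
  induction t generalizing q i with
  | zero =>
    simp only [reachW]
    rw [if_neg]
    unfold term
    split_ifs <;> simp_all
    omega
  | succ t ih =>
    cases h : term M n q i with
    | some o' =>
      rw [reachW_of_some M _ n _ q i _ o' h]
      unfold term at h
      split_ifs at h <;> first | omega | (cases h; simp)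
    | none =>
      rw [reachW_succ_none M _ n t q i _ h]
      apply Finset.sum_eq_zero
      intro q'' _
      apply Finset.sum_eq_zero
      intro m _
      cases m with
      | left => rw [M.no_left, zero_mul]
      | stay => rw [ih q'' _ (by simp [Move.shift]; exact hi), mul_zero]
      | right => rw [ih q'' _ (by simp [Move.shift]; omega), mul_zero]

/-- A head inside a block of right endmarkers cannot exit to the right. -/
lemma reachW_no_right (n : ℕ) (t : ℕ) (q q' : Q) (i : ℤ) (hi : i < n) :
    reachW M .rightEnd n t q i (Sum.inl (q', true)) = 0 := by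
  classical
  induction t generalizing q i with
  | zero =>
    simp only [reachW]
    rw [if_neg]
    unfold term
    split_ifs <;> simp_all
    omega
  | succ t ih =>
    cases h : term M n q i with
    | some o' =>
      rw [reachW_of_some M _ n _ q i _ o' h]
      unfold term at h
      split_ifs at h <;> first | omega | (cases h; simp)
    | none =>
      rw [reachW_succ_none M _ n t q i _ h]
      apply Finset.sum_eq_zero
      intro q'' _
      apply Finset.sum_eq_zero
      intro m _
      cases m with
      | left => rw [ih q'' _ (by simp [Move.shift]; omega), mul_zero]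
      | stay => rw [ih q'' _ (by simp [Move.shift]; exact hi), mul_zero]
      | right => rw [M.no_right, zero_mul]

/-- Exit position relative to the block. -/
def epos (n : ℕ) (d : Bool) : ℤ := if d then n else -1

/-- Value of an outcome when the rest of the computation may take `t` steps. -/
noncomputable def oval (τ : ℤ → Sym A) (a : ℤ) (n : ℕ) (t : ℕ) : Outc Q → ℝ
  | Sum.inl x => accWithin M τ t x.1 (a + epos n x.2)
  | Sum.inr true => 1
  | Sum.inr false => 0

/-- Value of an outcome in the limit. -/
noncomputable def ovalL (τ : ℤ → Sym A) (a : ℤ) (n : ℕ) : Outc Q → ℝ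
  | Sum.inl x => accLim M τ x.1 (a + epos n x.2)
  | Sum.inr true => 1
  | Sum.inr false => 0

lemma oval_nonneg (τ : ℤ → Sym A) (a : ℤ) (n : ℕ) (t : ℕ) (o : Outc Q) : 0 ≤ oval M τ a n t o := by
  rcases o with x | (_ | _)
  · exact accWithin_nonneg M τ t _ _
  · exact le_refl _
  · exact zero_le_one

lemma oval_le_ovalL (τ : ℤ → Sym A) (a : ℤ) (n : ℕ) (t : ℕ) (o : Outc Q) :
    oval M τ a n t o ≤ ovalL M τ a n o := by
  rcases o with x | (_ | _)
  · exact accWithin_le_accLim M τ t _ _
  · exact le_refl _
  · exact le_refl _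

lemma oval_succ_le (τ : ℤ → Sym A) (a : ℤ) (n : ℕ) (t : ℕ) (o : Outc Q) :
    oval M τ a n t o ≤ oval M τ a n (t + 1) o := by
  rcases o with x | (_ | _)
  · exact accWithin_succ_le M τ t _ _
  · exact le_refl _
  · exact le_refl _

lemma oval_tendsto (τ : ℤ → Sym A) (a : ℤ) (n : ℕ) (o : Outc Q) :
    Tendsto (fun t => oval M τ a n t o) atTop (𝓝 (ovalL M τ a n o)) := by
  rcases o with x | (_ | _)
  · exact accWithin_tendsto M τ _ _
  · exact tendsto_const_nhds
  · exact tendsto_const_nhds

/-- `oval` of a terminal configuration. -/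
lemma oval_term (τ : ℤ → Sym A) (a : ℤ) (n : ℕ) (t : ℕ) (q : Q) (i : ℤ) (hi : -1 ≤ i)
    (hi' : i ≤ n) (o : Outc Q) (h : term M n q i = some o) :
    oval M τ a n t o = accWithin M τ t q (a + i) := by
  classical
  unfold term at h
  split_ifs at h with h1 h2 h3 h4
  · cases h
    have : i = -1 := by omega
    subst this
    simp [oval, epos]
  · cases h
    have : i = n := by omega
    subst this
    simp [oval, epos]
  · cases h
    cases t <;> simp [oval, accWithin, h3]
  · cases h
    cases t <;> simp [oval, accWithin, h3, h4]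

lemma not_acc_of_term_none (n : ℕ) (q : Q) (i : ℤ) (h : term M n q i = none) :
    ¬ M.acc q ∧ ¬ M.rej q ∧ 0 ≤ i ∧ i < n := by
  classical
  unfold term at h
  split_ifs at h with h1 h2 h3 h4
  exact ⟨h3, h4, by omega, by omega⟩

lemma sum_reachW_some [DecidableEq Q] (σ : Sym A) (n : ℕ) (t : ℕ) (q : Q) (i : ℤ)
    (o : Outc Q) (h : term M n q i = some o) (g : Outc Q → ℝ) :
    ∑ o', reachW M σ n t q i o' * g o' = g o := by
  classical
  simp [reachW_of_some M σ n _ q i _ o h]

lemma sum_reachW_none [DecidableEq Q] (σ : Sym A) (n : ℕ) (t : ℕ) (q : Q) (i : ℤ)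
    (h : term M n q i = none) (g : Outc Q → ℝ) :
    ∑ o', reachW M σ n (t + 1) q i o' * g o'
      = ∑ q' : Q, ∑ m : Move, M.tr q σ q' m * ∑ o', reachW M σ n t q' (i + m.shift) o' * g o' := by
  simp only [reachW_succ_none M σ n t q i _ h, Finset.sum_mul, Finset.mul_sum]
  rw [Finset.sum_comm]
  refine Finset.sum_congr rfl fun q' _ => ?_
  rw [Finset.sum_comm]
  refine Finset.sum_congr rfl fun m _ => Finset.sum_congr rfl fun o _ => by ring

lemma shift_bounds (m : Move) : -1 ≤ m.shift ∧ m.shift ≤ 1 := by
  cases m <;> simp [Move.shift]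

section block
variable (τ : ℤ → Sym A) (a : ℤ) (n : ℕ) (σ : Sym A)

/-- Upper bound, inside the block (strict decrease of time). -/
lemma acc_upper_step [DecidableEq Q] (hτ : ∀ i : ℤ, 0 ≤ i → i < n → τ (a + i) = σ) (t : ℕ)
    (ih : ∀ (q : Q) (i : ℤ), -1 ≤ i → i ≤ n →
      accWithin M τ t q (a + i) ≤ ∑ o, reachW M σ n t q i o * oval M τ a n t o)
    (q : Q) (i : ℤ) (hi : 0 ≤ i) (hi' : i < n) :
    accWithin M τ (t + 1) q (a + i) ≤ ∑ o, reachW M σ n (t + 1) q i o * oval M τ a n t o := by
  classical
  cases h : term M n q i with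
  | some o =>
    rw [sum_reachW_some M σ n (t + 1) q i o h]
    unfold term at h
    split_ifs at h with h1 h2 h3 h4
    · omega
    · omega
    · cases h
      exact accWithin_le_one M τ _ _ _
    · cases h
      simp [oval, accWithin, h3, h4]
  | none =>
    obtain ⟨h1, h2, h3, h4⟩ := not_acc_of_term_none M n q i h
    rw [sum_reachW_none M σ n t q i h, accWithin, if_neg h1, if_neg h2, hτ i hi hi']
    apply tr_sum_le
    intro q' m
    have := shift_bounds m
    rw [add_assoc]
    exact ih q' (i + m.shift) (by omega) (by omega)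

lemma acc_upper [DecidableEq Q] (hτ : ∀ i : ℤ, 0 ≤ i → i < n → τ (a + i) = σ) (t : ℕ)
    (q : Q) (i : ℤ) (hi : -1 ≤ i) (hi' : i ≤ n) :
    accWithin M τ t q (a + i) ≤ ∑ o, reachW M σ n t q i o * oval M τ a n t o := by
  classical
  induction t generalizing q i with
  | zero =>
    cases h : term M n q i with
    | some o =>
      rw [sum_reachW_some M σ n 0 q i o h, oval_term M τ a n 0 q i hi hi' o h]
    | none =>
      obtain ⟨h1, h2, h3, h4⟩ := not_acc_of_term_none M n q i h
      simp [accWithin, h1, reachW_zero_none M σ n q i _ h]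
  | succ t ih =>
    cases h : term M n q i with
    | some o =>
      rw [sum_reachW_some M σ n (t + 1) q i o h, oval_term M τ a n (t + 1) q i hi hi' o h]
    | none =>
      obtain ⟨h1, h2, h3, h4⟩ := not_acc_of_term_none M n q i h
      refine le_trans (acc_upper_step M τ a n σ hτ t ih q i h3 h4) ?_
      apply Finset.sum_le_sum
      intro o _
      exact mul_le_mul_of_nonneg_left (oval_succ_le M τ a n t o) (reachW_nonneg M σ n _ q i o)

lemma acc_lower [DecidableEq Q] (hτ : ∀ i : ℤ, 0 ≤ i → i < n → τ (a + i) = σ) (t s : ℕ)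
    (q : Q) (i : ℤ) (hi : -1 ≤ i) (hi' : i ≤ n) :
    ∑ o, reachW M σ n t q i o * oval M τ a n s o ≤ accWithin M τ (t + s) q (a + i) := by
  classical
  induction t generalizing q i with
  | zero =>
    cases h : term M n q i with
    | some o =>
      rw [sum_reachW_some M σ n 0 q i o h, oval_term M τ a n s q i hi hi' o h, zero_add]
    | none =>
      simp only [reachW_zero_none M σ n q i _ h, zero_mul, Finset.sum_const_zero]
      exact accWithin_nonneg M τ _ _ _
  | succ t ih =>
    cases h : term M n q i with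
    | some o =>
      rw [sum_reachW_some M σ n (t + 1) q i o h, oval_term M τ a n s q i hi hi' o h]
      exact accWithin_mono M τ q (a + i) (by omega)
    | none =>
      obtain ⟨h1, h2, h3, h4⟩ := not_acc_of_term_none M n q i h
      rw [sum_reachW_none M σ n t q i h]
      have e : t + 1 + s = (t + s) + 1 := by omega
      rw [e, accWithin, if_neg h1, if_neg h2, hτ i h3 h4]
      apply tr_sum_le
      intro q' m
      have := shift_bounds m
      rw [add_assoc a i]
      exact ih q' (i + m.shift) (by omega) (by omega)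

/-- Block equation for the limit acceptance probabilities. -/
lemma acc_block_eq [DecidableEq Q] (hτ : ∀ i : ℤ, 0 ≤ i → i < n → τ (a + i) = σ)
    (q : Q) (i : ℤ) (hi : -1 ≤ i) (hi' : i ≤ n) :
    accLim M τ q (a + i) = ∑ o, reachL M σ n q i o * ovalL M τ a n o := by
  classical
  apply le_antisymm
  · apply ciSup_le
    intro t
    refine le_trans (acc_upper M τ a n σ hτ t q i hi hi') ?_
    apply Finset.sum_le_sum
    intro o _
    exact mul_le_mul (reachW_le_reachL M σ n t q i o) (oval_le_ovalL M τ a n t o)
      (oval_nonneg M τ a n t o) (reachL_nonneg M σ n q i o)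
  · have h1 : Tendsto (fun t => ∑ o, reachW M σ n t q i o * oval M τ a n t o) atTop
        (𝓝 (∑ o, reachL M σ n q i o * ovalL M τ a n o)) :=
      tendsto_finsetSum _ fun o _ => (reachW_tendsto M σ n q i o).mul (oval_tendsto M τ a n o)
    apply le_of_tendsto h1
    apply Eventually.of_forall
    intro t
    exact le_trans (acc_lower M τ a n σ hτ t t q i hi hi') (accWithin_le_accLim M τ _ _ _)

end block

open Classical in
/-- Row of outcome probabilities, where the outcome `inr false` collects everything else
(rejection or looping for ever inside the block). -/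
noncomputable def prow (σ : Sym A) (n : ℕ) (q : Q) (i : ℤ) (o : Outc Q) : ℝ :=
  if o = Sum.inr false then 1 - ∑ o' ∈ univ.erase (Sum.inr false : Outc Q), reachL M σ n q i o'
  else reachL M σ n q i o

lemma prow_of_ne (σ : Sym A) (n : ℕ) (q : Q) (i : ℤ) (o : Outc Q) (h : o ≠ Sum.inr false) :
    prow M σ n q i o = reachL M σ n q i o := by
  simp [prow, h]

lemma prow_nonneg (σ : Sym A) (n : ℕ) (q : Q) (i : ℤ) (o : Outc Q) : 0 ≤ prow M σ n q i o := by
  classical
  unfold prow
  split_ifs
  · rw [sub_nonneg]
    refine le_trans ?_ (reachL_sum_le M σ n q i)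
    apply Finset.sum_le_sum_of_subset_of_nonneg
    · intro x _; exact Finset.mem_univ _
    · intro o _ _; exact reachL_nonneg M σ n q i o
  · exact reachL_nonneg M σ n q i o

lemma prow_sum (σ : Sym A) (n : ℕ) (q : Q) (i : ℤ) : ∑ o, prow M σ n q i o = 1 := by
  classical
  rw [← Finset.add_sum_erase univ _ (Finset.mem_univ (Sum.inr false : Outc Q))]
  have h : ∑ x ∈ univ.erase (Sum.inr false : Outc Q), prow M σ n q i x
      = ∑ x ∈ univ.erase (Sum.inr false : Outc Q), reachL M σ n q i x := by
    refine Finset.sum_congr rfl fun x hx => ?_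
    exact prow_of_ne M σ n q i x (Finset.ne_of_mem_erase hx)
  rw [h]
  simp [prow]

lemma sum_prow_mul (σ : Sym A) (n : ℕ) (q : Q) (i : ℤ) (g : Outc Q → ℝ)
    (hg : g (Sum.inr false) = 0) [DecidableEq Q] :
    ∑ o, prow M σ n q i o * g o = ∑ o, reachL M σ n q i o * g o := by
  classical
  refine Finset.sum_congr rfl fun o _ => ?_
  by_cases h : o = Sum.inr false
  · rw [h, hg, mul_zero, mul_zero]
  · rw [prow_of_ne M σ n q i o h]

end
end Pool.Agent.MP_44310b
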