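import Mathlib
import Pool.Agent.Lib.MP_44310b_lc.Exit
import Pool.Agent.Lib.MP_44310b_lc.Chain

set_option autoImplicit false

namespace Pool.Agent.MP_44310b

open Finset

section
variable {A Q : Type} [Fintype Q] [DecidableEq Q] (M : TwoPFA A Q)

/-- Entry states of a sequence of `N` blocks: block, side (`true` = right), machine state. -/
abbrev Ent (N : ℕ) (Q : Type) := Fin N × Bool × Q

/-- Where an outcome in a block leads. -/
def btgt (N : ℕ) (Q : Type) (v : Ent N Q) (o : Outc Q) : Option (Ent N Q) :=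
  match o with
  | Sum.inl (q', true) => if h : v.1.1 + 1 < N then some (⟨v.1.1 + 1, h⟩, false, q') else none
  | Sum.inl (q', false) =>
      if 0 < v.1.1 then some (⟨v.1.1 - 1, lt_of_le_of_lt (Nat.sub_le _ _) v.1.2⟩, true, q')
      else none
  | Sum.inr _ => none

/-- Value of absorbing outcomes. -/
def bval (N : ℕ) (Q : Type) (_ : Ent N Q) : Outc Q → ℝ
  | Sum.inr true => 1
  | _ => 0

/-- Relative entry position. -/
def spos (n : ℕ) (sd : Bool) : ℤ := if sd then n - 1 else 0

/-- Row of outcome probabilities at an entry state. -/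
noncomputable def bP (sy : ℕ → Sym A) (ln : ℕ → ℕ) (N : ℕ) (v : Ent N Q) (o : Outc Q) : ℝ :=
  prow M (sy v.1) (ln v.1) v.2.2 (spos (ln v.1) v.2.1) o

/-- Acceptance probability at an entry state. -/
noncomputable def bu (τ : ℤ → Sym A) (off : ℕ → ℤ) (ln : ℕ → ℕ) (N : ℕ) (v : Ent N Q) : ℝ :=
  accLim M τ v.2.2 (off v.1 + spos (ln v.1) v.2.1)

/-- `τ` is decomposed into the `N` constant blocks given by `sy`, `ln`, `off`. -/
structure Decomp (τ : ℤ → Sym A) (sy : ℕ → Sym A) (ln : ℕ → ℕ) (off : ℕ → ℤ) (N : ℕ) : Prop where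
  hN : 0 < N
  hoff : ∀ b, off (b + 1) = off b + ln b
  hln : ∀ b, b < N → 0 < ln b
  hτ : ∀ b, b < N → ∀ i : ℤ, 0 ≤ i → i < ln b → τ (off b + i) = sy b
  hfirst : sy 0 = .leftEnd
  hlast : sy (N - 1) = .rightEnd

variable {τ : ℤ → Sym A} {sy : ℕ → Sym A} {ln : ℕ → ℕ} {off : ℕ → ℤ} {N : ℕ}

omit [Fintype Q] [DecidableEq Q] in
lemma btgt_pos (D : Decomp τ sy ln off N) (v v' : Ent N Q) (q' : Q) (d : Bool)
    (h : btgt N Q v (Sum.inl (q', d)) = some v') :
    v'.2.2 = q' ∧ off v'.1 + spos (ln v'.1) v'.2.1 = off v.1 + epos (ln v.1) d := by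
  cases d with
  | true =>
    simp only [btgt] at h
    split_ifs at h with h1
    cases h
    refine ⟨rfl, ?_⟩
    simp only [spos, epos, D.hoff]
    simp
  | false =>
    simp only [btgt] at h
    split_ifs at h with h1
    cases h
    refine ⟨rfl, ?_⟩
    have h2 := D.hoff (v.1.1 - 1)
    have h3 : v.1.1 - 1 + 1 = v.1.1 := by omega
    rw [h3] at h2
    simp only [spos, epos]
    simp only [if_true, Bool.false_eq_true, if_false]
    rw [h2]
    ring

omit [DecidableEq Q] in
lemma btgt_none_zero (D : Decomp τ sy ln off N) (v : Ent N Q) (q' : Q) (d : Bool)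
    (h : btgt N Q v (Sum.inl (q', d)) = none) (t : ℕ) :
    reachW M (sy v.1) (ln v.1) t v.2.2 (spos (ln v.1) v.2.1) (Sum.inl (q', d)) = 0 := by
  have hpos : 0 < ln v.1 := D.hln _ v.1.2
  cases d with
  | true =>
    simp only [btgt] at h
    split_ifs at h with h1
    have h2 : (v.1 : ℕ) = N - 1 := by have := v.1.2; omega
    rw [h2, D.hlast]
    apply reachW_no_right
    unfold spos
    rw [h2] at hpos
    split_ifs <;> omega
  | false =>
    simp only [btgt] at h
    split_ifs at h with h1
    have h2 : (v.1 : ℕ) = 0 := by omega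
    rw [h2, D.hfirst]
    apply reachW_no_left
    unfold spos
    rw [h2] at hpos
    split_ifs <;> omega

omit [DecidableEq Q] in
lemma btgt_none_zero' (D : Decomp τ sy ln off N) (v : Ent N Q) (q' : Q) (d : Bool)
    (h : btgt N Q v (Sum.inl (q', d)) = none) :
    reachL M (sy v.1) (ln v.1) v.2.2 (spos (ln v.1) v.2.1) (Sum.inl (q', d)) = 0 := by
  unfold reachL
  simp only [btgt_none_zero M D v q' d h]
  exact ciSup_const

lemma bP_nonneg (v : Ent N Q) (o : Outc Q) : 0 ≤ bP M sy ln N v o := prow_nonneg M _ _ _ _ _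

lemma bP_sum (v : Ent N Q) : ∑ o, bP M sy ln N v o = 1 := by
  have := prow_sum M (sy v.1) (ln v.1) v.2.2 (spos (ln v.1) v.2.1)
  unfold bP
  convert this

/-- Block equations. -/
lemma bu_eq (D : Decomp τ sy ln off N) (v : Ent N Q) :
    bu M τ off ln N v
      = ∑ o, bP M sy ln N v o * outVal (btgt N Q) (bval N Q) (bu M τ off ln N) v o := by
  have hpos : 0 < ln v.1 := D.hln _ v.1.2
  have h1 := acc_block_eq M τ (off v.1) (ln v.1) (sy v.1) (D.hτ v.1 v.1.2) v.2.2
    (spos (ln v.1) v.2.1) (by unfold spos; split_ifs <;> omega) (by unfold spos; split_ifs <;> omega)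
  have h2 := sum_prow_mul M (sy v.1) (ln v.1) v.2.2 (spos (ln v.1) v.2.1)
    (ovalL M τ (off v.1) (ln v.1)) rfl
  rw [← h2] at h1
  show accLim M τ v.2.2 (off v.1 + spos (ln v.1) v.2.1) = _
  rw [h1]
  refine Finset.sum_congr rfl fun o _ => ?_
  rcases o with ⟨q', d⟩ | (_ | _)
  · cases h : btgt N Q v (Sum.inl (q', d)) with
    | none =>
      have h3 : bP M sy ln N v (Sum.inl (q', d)) = 0 := by
        unfold bP
        rw [prow_of_ne M _ _ _ _ _ (by simp)]
        exact btgt_none_zero' M D v q' d h
      have h4 : prow M (sy v.1) (ln v.1) v.2.2 (spos (ln v.1) v.2.1) (Sum.inl (q', d)) = 0 := h3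
      rw [h3, h4, zero_mul, zero_mul]
    | some v' =>
      obtain ⟨h3, h4⟩ := btgt_pos D v v' q' d h
      unfold outVal
      rw [h]
      simp only
      unfold bP bu ovalL
      simp only
      rw [h3, h4]
  · simp [ovalL, outVal, btgt, bval]
  · simp [ovalL, outVal, btgt, bval, bP]

/-- States that cannot reach absorption have acceptance probability zero. -/
lemma bu_zero (D : Decomp τ sy ln off N) (v : Ent N Q)
    (hv : ¬ Good (btgt N Q) (fun v o => 0 < bP M sy ln N v o) v) : bu M τ off ln N v = 0 := by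
  have key : ∀ t (v : Ent N Q), ¬ Good (btgt N Q) (fun v o => 0 < bP M sy ln N v o) v →
      accWithin M τ t v.2.2 (off v.1 + spos (ln v.1) v.2.1) = 0 := by
    intro t
    induction t with
    | zero =>
      intro v hv
      have hpos : 0 < ln v.1 := D.hln _ v.1.2
      by_contra hne
      have hacc : M.acc v.2.2 := by
        by_contra h
        exact hne (by simp [accWithin, h])
      apply hv
      apply good_of_none _ _ v (Sum.inr true) _ rfl
      show 0 < prow M _ _ _ _ _
      rw [prow_of_ne M _ _ _ _ _ (by simp)]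
      refine lt_of_lt_of_le ?_ (reachW_le_reachL M _ _ 0 _ _ _)
      have hterm : term M (ln v.1) v.2.2 (spos (ln v.1) v.2.1) = some (Sum.inr true) := by
        unfold term spos
        rw [if_neg (by split_ifs <;> omega), if_neg (by split_ifs <;> omega), if_pos hacc]
      rw [reachW_of_some M _ _ _ _ _ _ _ hterm, if_pos rfl]
      exact one_pos
    | succ t ih =>
      intro v hv
      have hpos : 0 < ln v.1 := D.hln _ v.1.2
      apply le_antisymm _ (accWithin_nonneg M τ _ _ _)
      refine le_trans (acc_upper_step M τ (off v.1) (ln v.1) (sy v.1) (D.hτ v.1 v.1.2) t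
        (fun q i hi hi' => acc_upper M τ (off v.1) (ln v.1) (sy v.1) (D.hτ v.1 v.1.2) t q i hi hi')
        v.2.2 (spos (ln v.1) v.2.1) (by unfold spos; split_ifs <;> omega)
        (by unfold spos; split_ifs <;> omega)) ?_
      apply Finset.sum_nonpos
      intro o _
      apply le_of_eq
      rcases o with ⟨q', d⟩ | (_ | _)
      · by_cases hp : 0 < bP M sy ln N v (Sum.inl (q', d))
        · cases h : btgt N Q v (Sum.inl (q', d)) with
          | none => rw [btgt_none_zero M D v q' d h, zero_mul]
          | some v' =>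
            obtain ⟨h3, h4⟩ := btgt_pos D v v' q' d h
            have hv' : ¬ Good (btgt N Q) (fun v o => 0 < bP M sy ln N v o) v' := by
              intro hg
              exact hv (good_of_some _ _ v v' _ hp h hg)
            have h5 := ih v' hv'
            rw [h3, h4] at h5
            have : oval M τ (off v.1) (ln v.1) t (Sum.inl (q', d)) = 0 := h5
            rw [this, mul_zero]
        · have h6 : bP M sy ln N v (Sum.inl (q', d)) = 0 :=
            le_antisymm (not_lt.1 hp) (bP_nonneg M v _)
          unfold bP at h6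
          rw [prow_of_ne M _ _ _ _ _ (by simp)] at h6
          have h7 : reachW M (sy v.1) (ln v.1) (t + 1) v.2.2 (spos (ln v.1) v.2.1)
              (Sum.inl (q', d)) = 0 :=
            le_antisymm (h6 ▸ reachW_le_reachL M _ _ _ _ _ _) (reachW_nonneg M _ _ _ _ _ _)
          rw [h7, zero_mul]
      · simp [oval]
      · have hp : ¬ 0 < bP M sy ln N v (Sum.inr true) := by
          intro hp
          exact hv (good_of_none _ _ v _ hp rfl)
        have h6 : bP M sy ln N v (Sum.inr true) = 0 :=
          le_antisymm (not_lt.1 hp) (bP_nonneg M v _)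
        unfold bP at h6
        rw [prow_of_ne M _ _ _ _ _ (by simp)] at h6
        have h7 : reachW M (sy v.1) (ln v.1) (t + 1) v.2.2 (spos (ln v.1) v.2.1)
            (Sum.inr true) = 0 :=
          le_antisymm (h6 ▸ reachW_le_reachL M _ _ _ _ _ _) (reachW_nonneg M _ _ _ _ _ _)
        rw [h7, zero_mul]
  unfold bu accLim
  simp only [key _ v hv]
  exact ciSup_const

end
end Pool.Agent.MP_44310b
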