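import Mathlib
import Pool.Agent.Lib.MP_44310b_lc.Tape

set_option autoImplicit false

namespace Pool.Agent.MP_44310b

/-- Concatenation of the first `K` constant blocks. -/
def wordK (bl : ℕ → Paren × ℕ) : ℕ → List Paren
  | 0 => []
  | K + 1 => wordK bl K ++ List.replicate (bl K).2 (bl K).1

lemma wordK_prefix (bl : ℕ → Paren × ℕ) {b K : ℕ} (h : b ≤ K) : wordK bl b <+: wordK bl K := by
  induction K with
  | zero => have : b = 0 := by omega
            subst this; exact List.prefix_rfl
  | succ K ih =>
    rcases Nat.lt_or_ge b (K + 1) with h1 | h1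
    · exact (ih (by omega)).trans (List.prefix_append _ _)
    · have : b = K + 1 := by omega
      subst this; exact List.prefix_rfl

/-- Symbols of the blocks of the whole tape. -/
def tsy (bl : ℕ → Paren × ℕ) (K : ℕ) : ℕ → Sym Paren
  | 0 => .leftEnd
  | b + 1 => if b < K then .letter (bl b).1 else .rightEnd

/-- Lengths of the blocks of the whole tape. -/
def tln (bl : ℕ → Paren × ℕ) (K : ℕ) : ℕ → ℕ
  | 0 => 1
  | b + 1 => if b < K then (bl b).2 else 1

/-- Offsets of blocks. -/
def toff (ln : ℕ → ℕ) : ℕ → ℤ
  | 0 => 0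
  | b + 1 => toff ln b + ln b

lemma toff_succ (bl : ℕ → Paren × ℕ) (K b : ℕ) (hb : b ≤ K) :
    toff (tln bl K) (b + 1) = 1 + (wordK bl b).length := by
  induction b with
  | zero => simp [toff, tln, wordK]
  | succ b ih =>
    rw [toff, ih (by omega)]
    have : b < K := by omega
    simp [tln, this, wordK]
    ring

lemma decomp_word (bl : ℕ → Paren × ℕ) (K : ℕ) (hbl : ∀ b, b < K → 0 < (bl b).2) :
    Decomp (inputTape (wordK bl K)) (tsy bl K) (tln bl K) (toff (tln bl K)) (K + 2) where
  hN := by omega
  hoff := fun b => rfl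
  hln := by
    intro b hb
    cases b with
    | zero => exact one_pos
    | succ b =>
      simp only [tln]
      split_ifs with h
      · exact hbl b h
      · exact one_pos
  hτ := by
    intro b hb i hi hi'
    cases b with
    | zero =>
      simp only [tln] at hi'
      have : i = 0 := by omega
      subst this
      simp [toff, inputTape, tsy]
    | succ b =>
      rw [toff_succ bl K b (by omega)]
      simp only [tln] at hi'
      simp only [tsy]
      have hpos : ¬ (1 + ((wordK bl b).length : ℤ) + i ≤ 0) := by omega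
      have htn : (1 + ((wordK bl b).length : ℤ) + i - 1).toNat = (wordK bl b).length + i.toNat := by
        omega
      unfold inputTape
      rw [if_neg hpos, htn]
      by_cases h : b < K
      · rw [if_pos h] at hi' ⊢
        obtain ⟨r, hr⟩ := wordK_prefix bl (show b + 1 ≤ K by omega)
        have hlen : (wordK bl (b + 1)).length = (wordK bl b).length + (bl b).2 := by
          simp [wordK]
        have hlt : (wordK bl b).length + i.toNat < (wordK bl (b + 1)).length := by
          rw [hlen]; omega
        rw [← hr, List.getElem?_append_left hlt]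
        simp only [wordK]
        rw [List.getElem?_append_right (by omega), Nat.add_sub_cancel_left,
          List.getElem?_replicate]
        rw [if_pos (by omega)]
      · rw [if_neg h] at hi' ⊢
        have hb' : b = K := by omega
        subst hb'
        have : i = 0 := by push_cast at hi'; omega
        subst this
        simp
  hfirst := rfl
  hlast := by
    show tsy bl K (K + 1) = _
    simp [tsy]

/-- Block-boundary criterion for the prefix condition. -/
lemma prefix_cond (bl : ℕ → Paren × ℕ) (K : ℕ)
    (h : ∀ b, b ≤ K → (wordK bl b).count .cl ≤ (wordK bl b).count .op) :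
    ∀ u, u <+: wordK bl K → u.count .cl ≤ u.count .op := by
  induction K with
  | zero =>
    intro u hu
    have : u = [] := by simpa [wordK] using hu
    subst this
    simp
  | succ K ih =>
    intro u hu
    have ih' := ih (fun b hb => h b (by omega))
    rw [wordK] at hu
    rcases List.prefix_or_prefix_of_prefix hu (List.prefix_append (wordK bl K) _) with h1 | h1
    · exact ih' u h1
    · obtain ⟨v, rfl⟩ := h1
      rw [List.prefix_append_right_inj] at hu
      obtain ⟨m, hm, rfl⟩ : ∃ m ≤ (bl K).2, v = List.replicate m (bl K).1 := by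
        rw [List.prefix_replicate_iff] at hu
        exact ⟨v.length, hu.1, hu.2⟩
      have hK := h K (by omega)
      have hK1 := h (K + 1) le_rfl
      rw [wordK] at hK1
      simp only [List.count_append, List.count_replicate] at hK1 ⊢
      cases hx : (bl K).1 with
      | op => simp [hx] at hK1 ⊢; omega
      | cl => simp [hx] at hK1 ⊢; omega

/-- The blocks of our words: super-block `j` is `(^{n a} )^{n (ι j)} (^{n (T-a)} )^{n (T - ι j)}`. -/
def ourBl (n : ℕ → ℕ) (T a : ℕ) (ι : ℕ → ℕ) (b : ℕ) : Paren × ℕ :=
  match b % 4 with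
  | 0 => (.op, n a)
  | 1 => (.cl, n (ι (b / 4)))
  | 2 => (.op, n (T - a))
  | _ => (.cl, n (T - ι (b / 4)))

lemma ourBl0 (n : ℕ → ℕ) (T a : ℕ) (ι : ℕ → ℕ) (j : ℕ) : ourBl n T a ι (4 * j) = (.op, n a) := by
  have h1 : (4 * j) % 4 = 0 := by omega
  simp [ourBl, h1]

lemma ourBl1 (n : ℕ → ℕ) (T a : ℕ) (ι : ℕ → ℕ) (j : ℕ) :
    ourBl n T a ι (4 * j + 1) = (.cl, n (ι j)) := by
  have h1 : (4 * j + 1) % 4 = 1 := by omega
  have h2 : (4 * j + 1) / 4 = j := by omega
  simp [ourBl, h1, h2]

lemma ourBl2 (n : ℕ → ℕ) (T a : ℕ) (ι : ℕ → ℕ) (j : ℕ) :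
    ourBl n T a ι (4 * j + 2) = (.op, n (T - a)) := by
  have h1 : (4 * j + 2) % 4 = 2 := by omega
  simp [ourBl, h1]

lemma ourBl3 (n : ℕ → ℕ) (T a : ℕ) (ι : ℕ → ℕ) (j : ℕ) :
    ourBl n T a ι (4 * j + 3) = (.cl, n (T - ι j)) := by
  have h1 : (4 * j + 3) % 4 = 3 := by omega
  have h2 : (4 * j + 3) / 4 = j := by omega
  simp [ourBl, h1, h2]

section counts
variable (D n0 T a : ℕ) (ι : ℕ → ℕ)

lemma counts_base (ha : a ≤ T) (k : ℕ) (hι : ∀ j, j < k → ι j ≤ T) :
    (wordK (ourBl (fun x => D * x + n0) T a ι) (4 * k)).count .op = k * (D * T + 2 * n0) ∧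
    (wordK (ourBl (fun x => D * x + n0) T a ι) (4 * k)).count .cl = k * (D * T + 2 * n0) := by
  induction k with
  | zero => simp [wordK]
  | succ k ih =>
    obtain ⟨h1, h2⟩ := ih (fun j hj => hι j (by omega))
    have hk := hι k (by omega)
    have e : 4 * (k + 1) = 4 * k + 1 + 1 + 1 + 1 := by ring
    rw [e, wordK, wordK, wordK, wordK, ourBl0, ourBl1, ourBl2, ourBl3]
    simp only [List.count_append, List.count_replicate, h1, h2]
    obtain ⟨c, hc⟩ := Nat.exists_eq_add_of_le ha
    obtain ⟨c', hc'⟩ := Nat.exists_eq_add_of_le hk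
    constructor
    · simp only [beq_self_eq_true, if_true]
      have : T - a = c := by omega
      rw [this, hc]
      simp
      ring
    · simp only [beq_self_eq_true, if_true]
      have : T - ι k = c' := by omega
      rw [this]
      have e2 : D * T = D * (ι k) + D * c' := by rw [hc']; ring
      rw [e2]
      simp
      ring

/-- The word is balanced when all indices are at most `a`. -/
lemma word_balanced (ha : a ≤ T) (k : ℕ) (hι : ∀ j, j < k → ι j ≤ a) :
    wordK (ourBl (fun x => D * x + n0) T a ι) (4 * k) ∈ Lbal := by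
  have hιT : ∀ j, j < k → ι j ≤ T := fun j hj => le_trans (hι j hj) ha
  refine ⟨?_, ?_⟩
  · obtain ⟨h1, h2⟩ := counts_base D n0 T a ι ha k hιT
    rw [h1, h2]
  · apply prefix_cond
    intro b hb
    obtain ⟨j, r, hr, rfl⟩ : ∃ j r, r < 4 ∧ b = 4 * j + r :=
      ⟨b / 4, b % 4, Nat.mod_lt _ (by norm_num), by omega⟩
    have hj : j ≤ k := by omega
    obtain ⟨h1, h2⟩ := counts_base D n0 T a ι ha j (fun j' hj' => hιT j' (by omega))
    interval_cases r
    · simp only [add_zero]
      rw [h1, h2]
    · rw [wordK, ourBl0]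
      simp only [List.count_append, List.count_replicate, h1, h2]
      simp
    · have hjk : j < k := by omega
      have h3 := Nat.mul_le_mul_left D (hι j hjk)
      rw [show 4 * j + 2 = 4 * j + 1 + 1 from rfl, wordK, wordK, ourBl0, ourBl1]
      simp only [List.count_append, List.count_replicate, h1, h2]
      simp
      omega
    · have hjk : j < k := by omega
      have h3 := Nat.mul_le_mul_left D (hι j hjk)
      rw [show 4 * j + 3 = 4 * j + 1 + 1 + 1 from rfl, wordK, wordK, wordK, ourBl0, ourBl1,
        ourBl2]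
      simp only [List.count_append, List.count_replicate, h1, h2]
      simp
      omega

/-- The word is not balanced when some index equals `a + 1`. -/
lemma word_not_balanced (hD : 0 < D) (ha : a ≤ T) (k : ℕ) (hι : ∀ j, j < k → ι j ≤ T)
    (j0 : ℕ) (hj0 : j0 < k) (hj0' : ι j0 = a + 1) :
    wordK (ourBl (fun x => D * x + n0) T a ι) (4 * k) ∉ Lbal := by
  rintro ⟨-, h⟩
  have h1 := h (wordK (ourBl (fun x => D * x + n0) T a ι) (4 * j0 + 2))
    (wordK_prefix _ (by omega))
  obtain ⟨h2, h3⟩ := counts_base D n0 T a ι ha j0 (fun j' hj' => hι j' (by omega))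
  rw [show 4 * j0 + 2 = 4 * j0 + 1 + 1 from rfl, wordK, wordK, ourBl0, ourBl1] at h1
  simp only [List.count_append, List.count_replicate, h2, h3, hj0'] at h1
  simp at h1
  have : D * (a + 1) = D * a + D := by ring
  omega

end counts

end Pool.Agent.MP_44310b
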