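import Mathlib
import Pool.Agent.Lib.MP_44310b_lc.Words

set_option autoImplicit false

namespace Pool.Agent.MP_44310b

open Finset

section
variable {Q : Type} [Fintype Q] [DecidableEq Q] (M : TwoPFA Paren Q)

/-- Outcome row of a block of `n` closing parentheses. -/
noncomputable def Tcl (n : ℕ) (s : Bool × Q) (o : Outc Q) : ℝ :=
  prow M (.letter .cl) n s.2 (spos n s.1) o

/-- Local patterns of a block. -/
abbrev LPat (Q : Type) := (Bool × Q) → Option (Outc Q)

/-- Factor of a partial pattern. -/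
noncomputable def optT (n : ℕ) (s : Bool × Q) : Option (Outc Q) → ℝ
  | none => 1
  | some o => Tcl M n s o

/-- The weight vector of a pair of blocks of lengths `n x` and `n (T - x)`. -/
noncomputable def EE (n : ℕ → ℕ) (T x : ℕ) (y : LPat Q × LPat Q) : ℝ :=
  (∏ s, optT M (n x) s (y.1 s)) * ∏ s, optT M (n (T - x)) s (y.2 s)

lemma Tcl_nonneg (n : ℕ) (s : Bool × Q) (o : Outc Q) : 0 ≤ Tcl M n s o := prow_nonneg M _ _ _ _ _

lemma optT_nonneg (n : ℕ) (s : Bool × Q) (o : Option (Outc Q)) : 0 ≤ optT M n s o := by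
  cases o with
  | none => exact zero_le_one
  | some o => exact Tcl_nonneg M n s o

lemma EE_nonneg (n : ℕ → ℕ) (T x : ℕ) (y : LPat Q × LPat Q) : 0 ≤ EE M n T x y :=
  mul_nonneg (Finset.prod_nonneg fun s _ => optT_nonneg M _ _ _)
    (Finset.prod_nonneg fun s _ => optT_nonneg M _ _ _)

/-- Same support of the rows for all lengths `n x`, `x ≤ T`. -/
def SameSupp (n : ℕ → ℕ) (T : ℕ) : Prop :=
  ∀ x x', x ≤ T → x' ≤ T → ∀ s o, 0 < Tcl M (n x) s o → 0 < Tcl M (n x') s o

variable {M}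

lemma optT_pos_of (n : ℕ → ℕ) (T : ℕ) (hS : SameSupp M n T) (x x' : ℕ) (hx : x ≤ T)
    (hx' : x' ≤ T) (s : Bool × Q) (o : Option (Outc Q)) (h : 0 < optT M (n x) s o) :
    0 < optT M (n x') s o := by
  cases o with
  | none => exact one_pos
  | some o => exact hS x x' hx hx' s o h

lemma EE_pos_of (n : ℕ → ℕ) (T : ℕ) (hS : SameSupp M n T) (x x' : ℕ) (hx : x ≤ T)
    (hx' : x' ≤ T) (y : LPat Q × LPat Q) (h : 0 < EE M n T x y) : 0 < EE M n T x' y := by
  have h1 : ∀ s, 0 < optT M (n x) s (y.1 s) := by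
    intro s
    apply lt_of_le_of_ne (optT_nonneg M _ _ _)
    intro h0
    have : ∏ s, optT M (n x) s (y.1 s) = 0 := Finset.prod_eq_zero (Finset.mem_univ s) h0.symm
    unfold EE at h
    rw [this, zero_mul] at h
    exact lt_irrefl _ h
  have h2 : ∀ s, 0 < optT M (n (T - x)) s (y.2 s) := by
    intro s
    apply lt_of_le_of_ne (optT_nonneg M _ _ _)
    intro h0
    have : ∏ s, optT M (n (T - x)) s (y.2 s) = 0 :=
      Finset.prod_eq_zero (Finset.mem_univ s) h0.symm
    unfold EE at h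
    rw [this, mul_zero] at h
    exact lt_irrefl _ h
  unfold EE
  apply mul_pos
  · exact Finset.prod_pos fun s _ => optT_pos_of n T hS x x' hx hx' s _ (h1 s)
  · exact Finset.prod_pos fun s _ =>
      optT_pos_of n T hS (T - x) (T - x') (Nat.sub_le _ _) (Nat.sub_le _ _) s _ (h2 s)

variable (M)

/-- The rows of the tape for our word. -/
noncomputable def Pι (n : ℕ → ℕ) (T a k : ℕ) (ι : ℕ → ℕ) (v : Ent (4 * k + 2) Q) (o : Outc Q) : ℝ :=
  bP M (tsy (ourBl n T a ι) (4 * k)) (tln (ourBl n T a ι) (4 * k)) (4 * k + 2) v o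

lemma ourBl_fst (n : ℕ → ℕ) (T a : ℕ) (ι ι' : ℕ → ℕ) (b : ℕ) :
    (ourBl n T a ι b).1 = (ourBl n T a ι' b).1 := by
  unfold ourBl
  split <;> rfl

lemma tsy_eq (n : ℕ → ℕ) (T a k : ℕ) (ι ι' : ℕ → ℕ) :
    tsy (ourBl n T a ι) k = tsy (ourBl n T a ι') k := by
  funext b
  cases b with
  | zero => rfl
  | succ b => simp only [tsy, ourBl_fst n T a ι ι' b]

/-- The row at the first variable block of super-block `j`. -/
lemma Pι_var1 (n : ℕ → ℕ) (T a k : ℕ) (ι : ℕ → ℕ) (j : ℕ) (hj : j < k) (s : Bool × Q)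
    (o : Outc Q) (h : 4 * j + 2 < 4 * k + 2) :
    Pι M n T a k ι (⟨4 * j + 2, h⟩, s) o = Tcl M (n (ι j)) s o := by
  have h1 : 4 * j + 1 < 4 * k := by omega
  simp only [Pι, bP, tsy, tln, h1, if_true, ourBl1, Tcl]

/-- The row at the second variable block of super-block `j`. -/
lemma Pι_var2 (n : ℕ → ℕ) (T a k : ℕ) (ι : ℕ → ℕ) (j : ℕ) (hj : j < k) (s : Bool × Q)
    (o : Outc Q) (h : 4 * j + 4 < 4 * k + 2) :
    Pι M n T a k ι (⟨4 * j + 4, h⟩, s) o = Tcl M (n (T - ι j)) s o := by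
  have h1 : 4 * j + 3 < 4 * k := by omega
  simp only [Pι, bP, tsy, tln, h1, if_true, ourBl3, Tcl]

/-- The rows at the other blocks do not depend on `ι`. -/
lemma Pι_fixed (n : ℕ → ℕ) (T a k : ℕ) (ι ι' : ℕ → ℕ) (b : Fin (4 * k + 2)) (s : Bool × Q)
    (o : Outc Q) (h1 : ∀ j, j < k → (b : ℕ) ≠ 4 * j + 2) (h2 : ∀ j, j < k → (b : ℕ) ≠ 4 * j + 4) :
    Pι M n T a k ι (b, s) o = Pι M n T a k ι' (b, s) o := by
  have hln : tln (ourBl n T a ι) (4 * k) b = tln (ourBl n T a ι') (4 * k) b := by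
    obtain ⟨b, hb⟩ := b
    cases b with
    | zero => rfl
    | succ b =>
      simp only [tln]
      by_cases hbk : b < 4 * k
      · simp only [hbk, if_true]
        obtain ⟨j, r, hr, rfl⟩ : ∃ j r, r < 4 ∧ b = 4 * j + r :=
          ⟨b / 4, b % 4, Nat.mod_lt _ (by norm_num), by omega⟩
        have hjk : j < k := by omega
        interval_cases r
        · simp only [add_zero, ourBl0]
        · exact absurd rfl (h1 j hjk)
        · simp only [ourBl2]
        · exact absurd rfl (h2 j hjk)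
      · simp only [hbk, if_false]
  unfold Pι bP
  rw [tsy_eq n T a (4 * k) ι ι']
  simp only [hln]

variable {M}

lemma Pι_supp (n : ℕ → ℕ) (T a k : ℕ) (hS : SameSupp M n T) (ι ι' : ℕ → ℕ)
    (hι : ∀ j, j < k → ι j ≤ T) (hι' : ∀ j, j < k → ι' j ≤ T) (v : Ent (4 * k + 2) Q)
    (o : Outc Q) (h : 0 < Pι M n T a k ι v o) : 0 < Pι M n T a k ι' v o := by
  obtain ⟨b, s⟩ := v
  by_cases h1 : ∃ j, j < k ∧ (b : ℕ) = 4 * j + 2
  · obtain ⟨j, hj, hb⟩ := h1
    have hlt : 4 * j + 2 < 4 * k + 2 := by omega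
    have hb' : b = ⟨4 * j + 2, hlt⟩ := Fin.ext hb
    rw [hb', Pι_var1 M n T a k _ j hj] at h ⊢
    exact hS _ _ (hι j hj) (hι' j hj) s o h
  · by_cases h2 : ∃ j, j < k ∧ (b : ℕ) = 4 * j + 4
    · obtain ⟨j, hj, hb⟩ := h2
      have hlt : 4 * j + 4 < 4 * k + 2 := by omega
      have hb' : b = ⟨4 * j + 4, hlt⟩ := Fin.ext hb
      rw [hb', Pι_var2 M n T a k _ j hj] at h ⊢
      exact hS _ _ (Nat.sub_le _ _) (Nat.sub_le _ _) s o h
    · push Not at h1 h2
      rwa [Pι_fixed M n T a k ι ι' b s o h1 h2] at h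

variable (M)

theorem fixed_k (D n0 T a k : ℕ) (ha : 1 ≤ a) (haT : a + 1 < T)
    (hn : ∀ x, 1 ≤ x → 0 < D * x + n0)
    (hS : SameSupp M (fun x => D * x + n0) T) :
    ∃ (Ω : Type) (_ : Fintype Ω) (c d : Ω → ℝ) (y : Ω → Fin k → LPat Q × LPat Q),
      (∀ p, 0 ≤ c p) ∧ (∀ p, 0 ≤ d p) ∧
      (∀ p j, 0 < EE M (fun x => D * x + n0) T 1 (y p j)) ∧
      ∀ ι : ℕ → ℕ, (∀ j, j < k → 1 ≤ ι j ∧ ι j ≤ a + 1) →
        (∑ p, c p * ∏ j : Fin k, (EE M (fun x => D * x + n0) T (ι j) (y p j) /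
            EE M (fun x => D * x + n0) T 1 (y p j))
          = acceptProb M (wordK (ourBl (fun x => D * x + n0) T a ι) (4 * k)) *
            ((∑ p, c p * ∏ j : Fin k, (EE M (fun x => D * x + n0) T (ι j) (y p j) /
              EE M (fun x => D * x + n0) T 1 (y p j))) +
             ∑ p, d p * ∏ j : Fin k, (EE M (fun x => D * x + n0) T (ι j) (y p j) /
              EE M (fun x => D * x + n0) T 1 (y p j)))) ∧
        0 < (∑ p, c p * ∏ j : Fin k, (EE M (fun x => D * x + n0) T (ι j) (y p j) /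
              EE M (fun x => D * x + n0) T 1 (y p j))) +
             ∑ p, d p * ∏ j : Fin k, (EE M (fun x => D * x + n0) T (ι j) (y p j) /
              EE M (fun x => D * x + n0) T 1 (y p j)) := by
  classical
  set n : ℕ → ℕ := fun x => D * x + n0 with hndef
  let ref : ℕ → ℕ := fun _ => 1
  have href : ∀ j, j < k → 1 ≤ ref j ∧ ref j ≤ a + 1 := fun j _ => ⟨le_rfl, by simp [ref]⟩
  let Sup : Ent (4 * k + 2) Q → Outc Q → Prop := fun v o => 0 < Pι M n T a k ref v o
  have hSup : ∀ ι : ℕ → ℕ, (∀ j, j < k → 1 ≤ ι j ∧ ι j ≤ a + 1) →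
      ∀ v o, Sup v o ↔ 0 < Pι M n T a k ι v o := by
    intro ι hι v o
    constructor
    · exact Pι_supp n T a k hS ref ι (fun j hj => by have := (href j hj).2; omega)
        (fun j hj => by have := (hι j hj).2; omega) v o
    · exact Pι_supp n T a k hS ι ref (fun j hj => by have := (hι j hj).2; omega)
        (fun j hj => by have := (href j hj).2; omega) v o
  let tg := btgt (4 * k + 2) Q
  let z : Outc Q := Sum.inr false
  let st : Ent (4 * k + 2) Q := (⟨0, by omega⟩, false, M.start)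
  obtain ⟨eF, eG, hF, hG, hform⟩ := chain_formula tg (bval (4 * k + 2) Q) st z
    (by intro v o; rcases o with _ | (_ | _) <;> simp [bval])
    (by intro v o; rcases o with _ | (_ | _) <;> simp [bval])
    (by
      intro v o v' h
      rcases o with x | (_ | _)
      · rfl
      · rfl
      · simp [tg, btgt] at h)
    (fun v => rfl) (fun v => rfl) Sup
  let P' : (ℕ → ℕ) → Ent (4 * k + 2) Q → Outc Q → ℝ := fun ι => modP tg z Sup (Pι M n T a k ι)
  have hP'nn : ∀ ι v o, 0 ≤ P' ι v o := by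
    intro ι v o
    simp only [P']
    unfold modP
    split_ifs
    · exact bP_nonneg M v o
    · exact zero_le_one
    · exact le_rfl
  have hmain : ∀ ι : ℕ → ℕ, (∀ j, j < k → 1 ≤ ι j ∧ ι j ≤ a + 1) →
      (∑ h, eF h * ∏ v, P' ι v (h v)
        = acceptProb M (wordK (ourBl n T a ι) (4 * k)) * ∑ h, (eF h + eG h) * ∏ v, P' ι v (h v)) ∧
      0 < ∑ h, (eF h + eG h) * ∏ v, P' ι v (h v) := by
    intro ι hι
    have hbl : ∀ b, b < 4 * k → 0 < (ourBl n T a ι b).2 := by
      intro b hb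
      obtain ⟨j, r, hr, rfl⟩ : ∃ j r, r < 4 ∧ b = 4 * j + r :=
        ⟨b / 4, b % 4, Nat.mod_lt _ (by norm_num), by omega⟩
      have hjk : j < k := by omega
      have h3 := hι j hjk
      interval_cases r
      · simp only [add_zero, ourBl0]; exact hn a ha
      · simp only [ourBl1]; exact hn _ h3.1
      · simp only [ourBl2]; exact hn _ (by omega)
      · simp only [ourBl3]; exact hn _ (by omega)
    have Dc := decomp_word (ourBl n T a ι) (4 * k) hbl
    have hu := fun v => bu_eq M Dc v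
    have hSupEq : (fun v o => 0 < bP M (tsy (ourBl n T a ι) (4 * k)) (tln (ourBl n T a ι) (4 * k))
        (4 * k + 2) v o) = Sup := by
      funext v o
      exact propext ((hSup ι hι v o).symm)
    have hu0 := fun v => bu_zero M Dc v
    rw [hSupEq] at hu0
    have := hform (Pι M n T a k ι) (fun v o => bP_nonneg M v o) (fun v => bP_sum M v)
      (hSup ι hι) (bu M (inputTape (wordK (ourBl n T a ι) (4 * k)))
        (toff (tln (ourBl n T a ι) (4 * k))) (tln (ourBl n T a ι) (4 * k)) (4 * k + 2)) hu hu0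
    have hst : bu M (inputTape (wordK (ourBl n T a ι) (4 * k)))
        (toff (tln (ourBl n T a ι) (4 * k))) (tln (ourBl n T a ι) (4 * k)) (4 * k + 2) st
        = acceptProb M (wordK (ourBl n T a ι) (4 * k)) := by
      simp [bu, st, toff, spos, accLim, acceptProb]
    rw [hst] at this
    exact this
  -- the index type
  let Ω := {h : Ent (4 * k + 2) Q → Outc Q // ∀ v, 0 < P' ref v (h v)}
  have hlt2 : ∀ j : Fin k, 4 * (j : ℕ) + 2 < 4 * k + 2 := fun j => by have := j.2; omega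
  have hlt4 : ∀ j : Fin k, 4 * (j : ℕ) + 4 < 4 * k + 2 := fun j => by have := j.2; omega
  let y : Ω → Fin k → LPat Q × LPat Q := fun p j =>
    (fun s => if Good tg Sup (⟨4 * j + 2, hlt2 j⟩, s) then some (p.1 (⟨4 * j + 2, hlt2 j⟩, s))
      else none,
     fun s => if Good tg Sup (⟨4 * j + 4, hlt4 j⟩, s) then some (p.1 (⟨4 * j + 4, hlt4 j⟩, s))
      else none)
  let G : (ℕ → ℕ) → Ω → Fin (4 * k + 2) → ℝ := fun ι p b => ∏ s, P' ι (b, s) (p.1 (b, s))
  have hG1 : ∀ ι (p : Ω) (j : Fin k), G ι p ⟨4 * j + 2, hlt2 j⟩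
      = ∏ s, optT M (n (ι j)) s ((y p j).1 s) := by
    intro ι p j
    refine Finset.prod_congr rfl fun s _ => ?_
    by_cases hg : Good tg Sup (⟨4 * (j : ℕ) + 2, hlt2 j⟩, s)
    · simp only [P', modP, y, hg, if_true, optT]
      exact Pι_var1 M n T a k ι j j.2 s _ _
    · have hp := p.2 (⟨4 * (j : ℕ) + 2, hlt2 j⟩, s)
      simp only [P', modP, hg, if_false] at hp
      have hz : p.1 (⟨4 * (j : ℕ) + 2, hlt2 j⟩, s) = z := by
        by_contra hne
        rw [if_neg hne] at hp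
        exact lt_irrefl _ hp
      simp only [P', modP, y, hg, if_false, optT, hz, if_true]
  have hG2 : ∀ ι (p : Ω) (j : Fin k), G ι p ⟨4 * j + 4, hlt4 j⟩
      = ∏ s, optT M (n (T - ι j)) s ((y p j).2 s) := by
    intro ι p j
    refine Finset.prod_congr rfl fun s _ => ?_
    by_cases hg : Good tg Sup (⟨4 * (j : ℕ) + 4, hlt4 j⟩, s)
    · simp only [P', modP, y, hg, if_true, optT]
      exact Pι_var2 M n T a k ι j j.2 s _ _
    · have hp := p.2 (⟨4 * (j : ℕ) + 4, hlt4 j⟩, s)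
      simp only [P', modP, hg, if_false] at hp
      have hz : p.1 (⟨4 * (j : ℕ) + 4, hlt4 j⟩, s) = z := by
        by_contra hne
        rw [if_neg hne] at hp
        exact lt_irrefl _ hp
      simp only [P', modP, y, hg, if_false, optT, hz, if_true]
  have hG12 : ∀ ι (p : Ω) (j : Fin k), G ι p ⟨4 * j + 2, hlt2 j⟩ * G ι p ⟨4 * j + 4, hlt4 j⟩
      = EE M n T (ι j) (y p j) := by
    intro ι p j
    rw [hG1, hG2]
    rfl
  have hG0 : ∀ ι (p : Ω) (b : Fin (4 * k + 2)), (∀ j, j < k → (b : ℕ) ≠ 4 * j + 2) →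
      (∀ j, j < k → (b : ℕ) ≠ 4 * j + 4) → G ι p b = G ref p b := by
    intro ι p b h1 h2
    refine Finset.prod_congr rfl fun s _ => ?_
    simp only [P', modP, Pι_fixed M n T a k ι ref b s _ h1 h2]
  have hGref : ∀ (p : Ω) b, 0 < G ref p b := fun p b => Finset.prod_pos fun s _ => p.2 (b, s)
  have hEpos : ∀ (p : Ω) j, 0 < EE M n T 1 (y p j) := by
    intro p j
    have := hG12 ref p j
    rw [show ref j = 1 from rfl] at this
    rw [← this]
    exact mul_pos (hGref _ _) (hGref _ _)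
  have hprod : ∀ ι (p : Ω), ∏ v, P' ι v (p.1 v)
      = (∏ v, P' ref v (p.1 v)) * ∏ j : Fin k, (EE M n T (ι j) (y p j) / EE M n T 1 (y p j)) := by
    intro ι p
    have e1 : ∀ ι', ∏ v, P' ι' v (p.1 v) = ∏ b, G ι' p b := by
      intro ι'
      rw [Fintype.prod_prod_type]
    rw [e1 ι, e1 ref]
    have e2 : ∏ b, G ι p b = (∏ b, G ref p b) * ∏ b, (G ι p b / G ref p b) := by
      rw [← Finset.prod_mul_distrib]
      refine Finset.prod_congr rfl fun b _ => ?_
      rw [mul_div_cancel₀ _ (hGref p b).ne']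
    rw [e2]
    congr 1
    let e : Fin k ⊕ Fin k → Fin (4 * k + 2) := fun x =>
      match x with
      | Sum.inl j => ⟨4 * j + 2, hlt2 j⟩
      | Sum.inr j => ⟨4 * j + 4, hlt4 j⟩
    have he : Function.Injective e := by
      rintro (j | j) (j' | j') h
      · simp only [e, Fin.mk.injEq] at h
        congr 1
        apply Fin.ext
        omega
      · simp only [e, Fin.mk.injEq] at h
        omega
      · simp only [e, Fin.mk.injEq] at h
        omega
      · simp only [e, Fin.mk.injEq] at h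
        congr 1
        apply Fin.ext
        omega
    rw [← Fintype.prod_of_injective e he (fun x => G ι p (e x) / G ref p (e x)) _ _ (fun _ => rfl)]
    · rw [Fintype.prod_sum_type, ← Finset.prod_mul_distrib]
      refine Finset.prod_congr rfl fun j _ => ?_
      simp only [e]
      have h1 := hG12 ι p j
      have h2 := hG12 ref p j
      rw [show ref j = 1 from rfl] at h2
      rw [← h1, ← h2, div_mul_div_comm]
    · intro b hb
      have h1 : ∀ j, j < k → (b : ℕ) ≠ 4 * j + 2 := by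
        intro j hj hbj
        exact hb ⟨Sum.inl ⟨j, hj⟩, Fin.ext hbj.symm⟩
      have h2 : ∀ j, j < k → (b : ℕ) ≠ 4 * j + 4 := by
        intro j hj hbj
        exact hb ⟨Sum.inr ⟨j, hj⟩, Fin.ext hbj.symm⟩
      rw [hG0 ι p b h1 h2, div_self (hGref p b).ne']
  have hzero : ∀ ι : ℕ → ℕ, (∀ j, j < k → 1 ≤ ι j ∧ ι j ≤ a + 1) →
      ∀ h : Ent (4 * k + 2) Q → Outc Q, ¬ (∀ v, 0 < P' ref v (h v)) → ∏ v, P' ι v (h v) = 0 := by
    intro ι hι h hh
    push Not at hh
    obtain ⟨v, hv⟩ := hh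
    apply Finset.prod_eq_zero (Finset.mem_univ v)
    by_contra hne
    have hpos : 0 < P' ι v (h v) := lt_of_le_of_ne (hP'nn _ _ _) (Ne.symm hne)
    apply not_lt.2 hv
    simp only [P', modP] at hpos ⊢
    by_cases hg : Good tg Sup v
    · simp only [hg, if_true] at hpos ⊢
      exact (hSup ref href v _).1 ((hSup ι hι v _).2 hpos)
    · simp only [hg, if_false] at hpos ⊢
      exact hpos
  have hsum : ∀ (e : (Ent (4 * k + 2) Q → Outc Q) → ℝ) (ι : ℕ → ℕ),
      (∀ j, j < k → 1 ≤ ι j ∧ ι j ≤ a + 1) →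
      ∑ p : Ω, (e p.1 * ∏ v, P' ref v (p.1 v)) *
        ∏ j : Fin k, (EE M n T (ι j) (y p j) / EE M n T 1 (y p j))
        = ∑ h, e h * ∏ v, P' ι v (h v) := by
    intro e ι hι
    apply Fintype.sum_of_injective (fun p : Ω => p.1) Subtype.val_injective
    · intro h hh
      have : ¬ (∀ v, 0 < P' ref v (h v)) := fun h' => hh ⟨⟨h, h'⟩, rfl⟩
      rw [hzero ι hι h this, mul_zero]
    · intro p
      rw [hprod ι p]
      ring
  refine ⟨Ω, inferInstance, fun p => eF p.1 * ∏ v, P' ref v (p.1 v),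
    fun p => eG p.1 * ∏ v, P' ref v (p.1 v), y, ?_, ?_, hEpos, ?_⟩
  · intro p
    exact mul_nonneg (hF _) (Finset.prod_nonneg fun v _ => hP'nn _ _ _)
  · intro p
    exact mul_nonneg (hG _) (Finset.prod_nonneg fun v _ => hP'nn _ _ _)
  · intro ι hι
    have h1 := hsum eF ι hι
    have h2 := hsum eG ι hι
    obtain ⟨h3, h4⟩ := hmain ι hι
    have h5 : ∑ h, (eF h + eG h) * ∏ v, P' ι v (h v)
        = (∑ h, eF h * ∏ v, P' ι v (h v)) + ∑ h, eG h * ∏ v, P' ι v (h v) := by
      rw [← Finset.sum_add_distrib]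
      exact Finset.sum_congr rfl fun h _ => by ring
    rw [h5] at h3 h4
    rw [← h1, ← h2] at h3 h4
    exact ⟨h3, h4⟩

end
end Pool.Agent.MP_44310b
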