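import Mathlib
import Pool.Agent.Lib.MP_44310b_lc.Abstract
import Pool.Agent.Lib.MP_44310b_lc.FixedK

set_option autoImplicit false

namespace Pool.Agent.MP_44310b

open Finset

/-- Linear dependence with a leading coefficient. -/
lemma exists_dep {V : Type} [Fintype V] (E : ℕ → V → ℝ) (T : ℕ) (hT : Fintype.card V + 2 ≤ T)
    (h1 : ∃ y, E 1 y ≠ 0) :
    ∃ a, 1 ≤ a ∧ a + 1 < T ∧ ∃ γ : ℕ → ℝ, ∀ y, E (a + 1) y = ∑ i ∈ range a, γ i * E (i + 1) y := by
  classical
  have hdep : ¬ LinearIndependent ℝ (fun i : Fin (T - 1) => E (i + 1)) := by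
    intro h
    have := h.fintype_card_le_finrank
    rw [Fintype.card_fin, Module.finrank_fintype_fun_eq_card] at this
    omega
  rw [Fintype.not_linearIndependent_iff] at hdep
  obtain ⟨g, hg, i1, hi1⟩ := hdep
  let g' : ℕ → ℝ := fun i => if h : i < T - 1 then g ⟨i, h⟩ else 0
  have hg' : ∀ y, ∑ i ∈ range (T - 1), g' i * E (i + 1) y = 0 := by
    intro y
    rw [← Fin.sum_univ_eq_sum_range (fun i => g' i * E (i + 1) y)]
    have := congrFun hg y
    simp only [Finset.sum_apply, Pi.smul_apply, smul_eq_mul, Pi.zero_apply] at this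
    rw [← this]
    refine Finset.sum_congr rfl fun i _ => ?_
    simp [g', i.2]
  have hex : ∃ i, i ∈ (range (T - 1)).filter (fun i => g' i ≠ 0) := by
    refine ⟨i1, ?_⟩
    simp only [Finset.mem_filter, Finset.mem_range]
    exact ⟨i1.2, by simpa [g', i1.2] using hi1⟩
  let S := (range (T - 1)).filter (fun i => g' i ≠ 0)
  have hS : S.Nonempty := hex
  let a := S.max' hS
  have haS : a ∈ S := S.max'_mem hS
  have hamem := Finset.mem_filter.1 haS
  have halt : a < T - 1 := Finset.mem_range.1 hamem.1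
  have hga : g' a ≠ 0 := hamem.2
  have hmax : ∀ i, i < T - 1 → a < i → g' i = 0 := by
    intro i hi hai
    by_contra hne
    have : i ∈ S := Finset.mem_filter.2 ⟨Finset.mem_range.2 hi, hne⟩
    have := S.le_max' i this
    exact absurd this (not_le.2 hai)
  have hsum : ∀ y, ∑ i ∈ range (a + 1), g' i * E (i + 1) y = 0 := by
    intro y
    rw [← hg' y]
    apply Finset.sum_subset
    · intro i hi
      rw [Finset.mem_range] at hi ⊢
      omega
    · intro i hi hi'
      rw [Finset.mem_range] at hi hi'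
      rw [hmax i hi (by omega), zero_mul]
  have hform : ∀ y, E (a + 1) y = ∑ i ∈ range a, (-g' i / g' a) * E (i + 1) y := by
    intro y
    have h := hsum y
    rw [Finset.sum_range_succ] at h
    have h2 : g' a * E (a + 1) y = - ∑ i ∈ range a, g' i * E (i + 1) y := by linarith
    have h3 : E (a + 1) y = (g' a)⁻¹ * (g' a * E (a + 1) y) := by
      rw [← mul_assoc, inv_mul_cancel₀ hga, one_mul]
    rw [h3, h2, ← Finset.sum_neg_distrib, Finset.mul_sum]
    refine Finset.sum_congr rfl fun i _ => ?_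
    rw [div_eq_mul_inv]
    ring
  refine ⟨a, ?_, by omega, fun i => -g' i / g' a, hform⟩
  rcases Nat.eq_zero_or_pos a with h0 | h0
  · obtain ⟨y, hy⟩ := h1
    have := hform y
    rw [h0] at this
    simp at this
    exact absurd this hy
  · exact h0

/-- Expansion of a product of sums along distinct positions. -/
lemma expand {V Ω : Type} [Fintype Ω] (k : ℕ) (r : ℕ → V → ℝ) (y : Ω → Fin k → V)
    (hr : ∀ p j, r 1 (y p j) = 1) (m : ℕ) (l : Fin m → Fin k) (hl : Function.Injective l) (N : ℕ)
    (χ : Fin m → ℕ → ℝ) (e : Ω → ℝ) (X : Fin m → Ω → Fin k → ℝ)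
    (hX : ∀ i p j, X i p j = ∑ t ∈ range N, χ i t * r (t + 1) (y p j)) :
    ∑ p, e p * ∏ i, X i p (l i) =
      ∑ g ∈ Fintype.piFinset (fun _ : Fin m => range N), (∏ i, χ i (g i)) *
        ∑ p, e p * ∏ j : Fin k,
          r (Function.extend (fun i => (l i : ℕ)) (fun i => g i + 1) (fun _ => 1) (j : ℕ)) (y p j) := by
  classical
  have hl' : Function.Injective (fun i => (l i : ℕ)) := fun i i' h => hl (Fin.ext h)
  have h1 : ∀ p, ∏ i, X i p (l i) = ∑ g ∈ Fintype.piFinset (fun _ : Fin m => range N),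
      (∏ i, χ i (g i)) * ∏ i, r (g i + 1) (y p (l i)) := by
    intro p
    simp only [hX]
    rw [Finset.prod_univ_sum]
    refine Finset.sum_congr rfl fun g _ => ?_
    rw [Finset.prod_mul_distrib]
  have h2 : ∀ (g : Fin m → ℕ) p, ∏ i, r (g i + 1) (y p (l i)) = ∏ j : Fin k,
      r (Function.extend (fun i => (l i : ℕ)) (fun i => g i + 1) (fun _ => 1) (j : ℕ)) (y p j) := by
    intro g p
    apply Fintype.prod_of_injective l hl
    · intro j hj
      rw [Function.extend_apply', hr]
      rintro ⟨i, hi⟩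
      exact hj ⟨i, Fin.ext hi⟩
    · intro i
      have := hl'.extend_apply (fun i => g i + 1) (fun _ => 1) i
      rw [this]
  simp only [h1, h2]
  simp only [Finset.mul_sum]
  rw [Finset.sum_comm]
  refine Finset.sum_congr rfl fun g _ => Finset.sum_congr rfl fun p _ => ?_
  ring

section
variable {Q : Type} [Fintype Q] [DecidableEq Q] (M : TwoPFA Paren Q)

/-- van der Waerden: an arithmetic progression of lengths on which all rows have equal support. -/
lemma exists_sameSupp (T : ℕ) : ∃ D n0 : ℕ, 0 < D ∧ SameSupp M (fun x => D * x + n0) T := by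
  classical
  let col : ℕ → Set ((Bool × Q) × Outc Q) := fun n => {p | 0 < Tcl M n p.1 p.2}
  obtain ⟨D, hD, n0, c, hc⟩ :=
    Combinatorics.exists_mono_homothetic_copy (Finset.range (T + 1)) col
  refine ⟨D, n0, hD, ?_⟩
  intro x x' hx hx' s o h
  have h1 := hc x (Finset.mem_range.2 (by omega))
  have h2 := hc x' (Finset.mem_range.2 (by omega))
  have h3 : col (D * x + n0) = col (D * x' + n0) := by
    simpa using h1.trans h2.symm
  have h4 : (s, o) ∈ col (D * x' + n0) := by rw [← h3]; exact h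
  exact h4

theorem not_accepts (M : TwoPFA Paren Q) : ¬ AcceptsBoundedError M Lbal := by
  classical
  rintro ⟨ε0, hε0, hM⟩
  set T : ℕ := Fintype.card (LPat Q × LPat Q) + 2 with hT
  obtain ⟨D, n0, hD, hS⟩ := exists_sameSupp M T
  set n : ℕ → ℕ := fun x => D * x + n0 with hn
  obtain ⟨a, ha, haT, γ, hγ⟩ := exists_dep (fun x => EE M n T x) T le_rfl
    ⟨(fun _ => none, fun _ => none), by simp [EE, optT]⟩
  -- ratios
  let r : ℕ → (LPat Q × LPat Q) → ℝ := fun x y => EE M n T x y / EE M n T 1 y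
  have hrnn : ∀ x y, 0 ≤ r x y := fun x y => div_nonneg (EE_nonneg M _ _ _ _) (EE_nonneg M _ _ _ _)
  have hrpos : ∀ x y, x ≤ a + 1 → 0 < EE M n T 1 y → 0 < r x y := by
    intro x y hx hy
    exact div_pos (EE_pos_of n T hS 1 x (by omega) (by omega) y hy) hy
  let C0 : ℝ := 1 + ∑ x ∈ range (a + 2), ∑ y, (r x y + (r x y)⁻¹)
  have hterm : ∀ x y, 0 ≤ r x y + (r x y)⁻¹ := fun x y =>
    add_nonneg (hrnn x y) (inv_nonneg.2 (hrnn x y))
  have hC0 : 1 ≤ C0 := by
    have : 0 ≤ ∑ x ∈ range (a + 2), ∑ y, (r x y + (r x y)⁻¹) :=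
      Finset.sum_nonneg fun x _ => Finset.sum_nonneg fun y _ => hterm x y
    simp only [C0]
    linarith
  have hle : ∀ x y, x ≤ a + 1 → r x y + (r x y)⁻¹ ≤ C0 := by
    intro x y hx
    have h1 : r x y + (r x y)⁻¹ ≤ ∑ y, (r x y + (r x y)⁻¹) :=
      Finset.single_le_sum (f := fun y => r x y + (r x y)⁻¹) (fun y _ => hterm x y)
        (Finset.mem_univ y)
    have h2 : ∑ y, (r x y + (r x y)⁻¹) ≤ ∑ x ∈ range (a + 2), ∑ y, (r x y + (r x y)⁻¹) :=
      Finset.single_le_sum (f := fun x => ∑ y, (r x y + (r x y)⁻¹))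
        (fun x _ => Finset.sum_nonneg fun y _ => hterm x y) (Finset.mem_range.2 (by omega))
    simp only [C0]
    linarith
  have hrle : ∀ x y, x ≤ a + 1 → r x y ≤ C0 := by
    intro x y hx
    have h1 := hle x y hx
    have h2 := inv_nonneg.2 (hrnn x y)
    linarith
  have hrge : ∀ x y, x ≤ a + 1 → 0 < EE M n T 1 y → 1 / C0 ≤ r x y := by
    intro x y hx hy
    have h1 := hle x y hx
    have h2 := hrnn x y
    have h3 : (r x y)⁻¹ ≤ C0 := by linarith
    have h4 := hrpos x y hx hy
    rw [one_div]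
    exact inv_le_of_inv_le₀ h4 h3
  -- coefficients
  let α : ℕ → ℝ := fun i => max (γ i) 0 + if i = 0 then 1 else 0
  let β : ℕ → ℝ := fun i => max (-γ i) 0 + if i = 0 then 1 else 0
  have hind : ∀ i : ℕ, (0 : ℝ) ≤ if i = 0 then 1 else 0 := by
    intro i; split_ifs <;> norm_num
  have hα : ∀ i, 0 ≤ α i := fun i => add_nonneg (le_max_right _ _) (hind i)
  have hβ : ∀ i, 0 ≤ β i := fun i => add_nonneg (le_max_right _ _) (hind i)
  have hα0 : 1 ≤ α 0 := by
    simp only [α, if_true]
    have := le_max_right (γ 0) 0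
    linarith
  have hβ0 : 1 ≤ β 0 := by
    simp only [β, if_true]
    have := le_max_right (-γ 0) 0
    linarith
  have hαβ : ∀ i, α i - β i = γ i := by
    intro i
    simp only [α, β]
    rcases le_total (γ i) 0 with h | h
    · rw [max_eq_right h, max_eq_left (by linarith)]; ring
    · rw [max_eq_left h, max_eq_right (by linarith)]; ring
  let C : ℝ := C0 * (1 + ∑ i ∈ range a, (α i + β i))
  have hsumαβ : 0 ≤ ∑ i ∈ range a, (α i + β i) :=
    Finset.sum_nonneg fun i _ => add_nonneg (hα i) (hβ i)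
  have hC0C : C0 ≤ C := by
    simp only [C]
    nlinarith
  have hC : 1 ≤ C := le_trans hC0 hC0C
  have hCpos : 0 < C := by linarith
  have h1C : 1 / C ≤ 1 := by
    rw [div_le_one hCpos]; exact hC
  -- the error
  set ε : ℝ := max ε0 (1 / 4) with hε
  have hε4 : 1 / 4 ≤ ε := le_max_right _ _
  have hε2 : ε < 1 / 2 := max_lt hε0 (by norm_num)
  have hεε : ε0 ≤ ε := le_max_left _ _
  have hεpos : 0 < ε := by linarith
  set K : ℝ := (1 - ε) / ε with hK
  have hK1 : 1 < K := by
    rw [hK, lt_div_iff₀ hεpos]; linarith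
  obtain ⟨k0, hk0⟩ := abstract_contradiction K C hK1 hC
  set k := k0 with hk
  obtain ⟨Ω, hΩ, c, d, y, hc, hd, hy, hmain⟩ := fixed_k M D n0 T a k ha haT
    (fun x hx => by have := Nat.mul_pos hD hx; omega) hS
  -- comparison of the two sums for a word
  let Fs : (ℕ → ℕ) → ℝ := fun ι => ∑ p, c p * ∏ j : Fin k, r (ι j) (y p j)
  let Gs : (ℕ → ℕ) → ℝ := fun ι => ∑ p, d p * ∏ j : Fin k, r (ι j) (y p j)
  have hFnn : ∀ ι, 0 ≤ Fs ι := fun ι => Finset.sum_nonneg fun p _ =>
    mul_nonneg (hc p) (Finset.prod_nonneg fun j _ => hrnn _ _)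
  have hGnn : ∀ ι, 0 ≤ Gs ι := fun ι => Finset.sum_nonneg fun p _ =>
    mul_nonneg (hd p) (Finset.prod_nonneg fun j _ => hrnn _ _)
  have hbal : ∀ ι : ℕ → ℕ, (∀ j, j < k → 1 ≤ ι j ∧ ι j ≤ a) → K * Gs ι ≤ Fs ι := by
    intro ι hι
    obtain ⟨h1, h2⟩ := hmain ι (fun j hj => ⟨(hι j hj).1, by have := (hι j hj).2; omega⟩)
    have h3 := (hM (wordK (ourBl n T a ι) (4 * k))).1
      (word_balanced D n0 T a ι (by omega) k (fun j hj => (hι j hj).2))
    change Fs ι = _ * (Fs ι + Gs ι) at h1
    change 0 < Fs ι + Gs ι at h2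
    have h4 : 1 - ε ≤ acceptProb M (wordK (ourBl n T a ι) (4 * k)) := by linarith
    have h5 : (1 - ε) * (Fs ι + Gs ι) ≤ Fs ι := by
      calc (1 - ε) * (Fs ι + Gs ι)
          ≤ acceptProb M (wordK (ourBl n T a ι) (4 * k)) * (Fs ι + Gs ι) :=
            mul_le_mul_of_nonneg_right h4 h2.le
        _ = Fs ι := h1.symm
    rw [hK, div_mul_eq_mul_div, div_le_iff₀ hεpos]
    linarith
  have hunb : ∀ ι : ℕ → ℕ, (∀ j, j < k → 1 ≤ ι j ∧ ι j ≤ a + 1) → (∃ j, j < k ∧ ι j = a + 1) →
      K * Fs ι ≤ Gs ι := by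
    intro ι hι hj
    obtain ⟨j0, hj0, hj0'⟩ := hj
    obtain ⟨h1, h2⟩ := hmain ι hι
    have h3 := (hM (wordK (ourBl n T a ι) (4 * k))).2
      (word_not_balanced D n0 T a ι hD (by omega) k
        (fun j hj => by have := (hι j hj).2; omega) j0 hj0 hj0')
    change Fs ι = _ * (Fs ι + Gs ι) at h1
    change 0 < Fs ι + Gs ι at h2
    have h4 : acceptProb M (wordK (ourBl n T a ι) (4 * k)) ≤ ε := by linarith
    have h5 : Fs ι ≤ ε * (Fs ι + Gs ι) := by
      calc Fs ι = acceptProb M (wordK (ourBl n T a ι) (4 * k)) * (Fs ι + Gs ι) := h1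
        _ ≤ ε * (Fs ι + Gs ι) := mul_le_mul_of_nonneg_right h4 h2.le
    rw [hK, div_mul_eq_mul_div, div_le_iff₀ hεpos]
    linarith
  -- the two functions
  have hr1 : ∀ p j, r 1 (y p j) = 1 := fun p j => div_self (hy p j).ne'
  let A : Ω → Fin k → ℝ := fun p j => ∑ t ∈ range a, α t * r (t + 1) (y p j)
  let B : Ω → Fin k → ℝ := fun p j => ∑ t ∈ range a, β t * r (t + 1) (y p j)
  have hAB : ∀ p j, A p j - B p j = r (a + 1) (y p j) := by
    intro p j
    have h1 := hγ (y p j)
    simp only [A, B]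
    rw [← Finset.sum_sub_distrib]
    have h2 : r (a + 1) (y p j) = ∑ i ∈ range a, γ i * r (i + 1) (y p j) := by
      simp only [r]
      rw [h1, Finset.sum_div]
      refine Finset.sum_congr rfl fun i _ => ?_
      rw [mul_div_assoc]
    rw [h2]
    refine Finset.sum_congr rfl fun i _ => ?_
    rw [← hαβ i]
    ring
  have hge1 : ∀ (ω : ℕ → ℝ), (∀ i, 0 ≤ ω i) → 1 ≤ ω 0 → ∀ p j,
      1 / C ≤ ∑ t ∈ range a, ω t * r (t + 1) (y p j) := by
    intro ω hω hω0 p j
    refine le_trans h1C ?_
    have h1 : ω 0 * r (0 + 1) (y p j) ≤ ∑ t ∈ range a, ω t * r (t + 1) (y p j) :=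
      Finset.single_le_sum (f := fun t => ω t * r (t + 1) (y p j))
        (fun t _ => mul_nonneg (hω t) (hrnn _ _)) (Finset.mem_range.2 (by omega))
    rw [zero_add, hr1, mul_one] at h1
    linarith
  have hle1 : ∀ (ω : ℕ → ℝ), (∀ i, 0 ≤ ω i) → (∀ i, ω i ≤ α i + β i) → ∀ p j,
      ∑ t ∈ range a, ω t * r (t + 1) (y p j) ≤ C := by
    intro ω hω hω0 p j
    calc ∑ t ∈ range a, ω t * r (t + 1) (y p j)
        ≤ ∑ t ∈ range a, (α t + β t) * C0 := by
          apply Finset.sum_le_sum
          intro t ht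
          rw [Finset.mem_range] at ht
          exact mul_le_mul (hω0 t) (hrle _ _ (by omega)) (hrnn _ _)
            (add_nonneg (hα t) (hβ t))
      _ = C0 * ∑ t ∈ range a, (α t + β t) := by rw [← Finset.sum_mul]; ring
      _ ≤ C := by
          simp only [C]
          nlinarith
  have h0a : 0 < a := ha
  refine hk0 k le_rfl Ω c d A B hc hd ?_ (hge1 α hα hα0) (hle1 α hα (fun i => by linarith [hβ i]))
    (hge1 β hβ hβ0) (hle1 β hβ (fun i => by linarith [hα i])) ?_ ?_ ?_ ?_
  · -- positivity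
    obtain ⟨-, h2⟩ := hmain (fun _ => 1) (fun j _ => ⟨le_rfl, by simp⟩)
    have e1 : ∀ p, ∏ j : Fin k, (EE M (fun x => D * x + n0) T ((fun _ => 1) (j : ℕ)) (y p j) /
        EE M (fun x => D * x + n0) T 1 (y p j)) = 1 := by
      intro p
      apply Finset.prod_eq_one
      intro j _
      exact hr1 p j
    simp only [e1, mul_one] at h2
    rw [Finset.sum_add_distrib]
    exact h2
  · intro p j
    rw [hAB]
    have h1 := hrge (a + 1) (y p j) le_rfl (hy p j)
    refine le_trans ?_ h1
    exact one_div_le_one_div_of_le (by linarith) hC0C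
  · intro p j
    rw [hAB]
    exact le_trans (hrle _ _ le_rfl) hC0C
  · -- H1
    intro m l hl X hX
    let χ : Fin m → ℕ → ℝ := fun i => if X i = A then α else β
    have hχ : ∀ i p j, X i p j = ∑ t ∈ range a, χ i t * r (t + 1) (y p j) := by
      intro i p j
      simp only [χ]
      by_cases h : X i = A
      · rw [if_pos h, h]
      · rw [if_neg h]
        rcases hX i with h' | h'
        · exact absurd h' h
        · rw [h']
    have hχnn : ∀ i t, 0 ≤ χ i t := by
      intro i t
      simp only [χ]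
      split_ifs
      · exact hα t
      · exact hβ t
    rw [expand k r y hr1 m l hl a χ d X hχ, expand k r y hr1 m l hl a χ c X hχ, Finset.mul_sum]
    apply Finset.sum_le_sum
    intro g hg
    have hg' : ∀ i, g i < a := fun i => by
      have := (Fintype.mem_piFinset.1 hg) i
      rwa [Finset.mem_range] at this
    rw [mul_left_comm]
    apply mul_le_mul_of_nonneg_left _ (Finset.prod_nonneg fun i _ => hχnn _ _)
    apply hbal (Function.extend (fun i => (l i : ℕ)) (fun i => g i + 1) (fun _ => 1))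
    intro j hj
    have hl' : Function.Injective (fun i => (l i : ℕ)) := fun i i' h => hl (Fin.ext h)
    by_cases h : ∃ i, (l i : ℕ) = j
    · obtain ⟨i, rfl⟩ := h
      have := hl'.extend_apply (fun i => g i + 1) (fun _ => 1) i
      rw [this]
      exact ⟨by omega, hg' i⟩
    · rw [Function.extend_apply' _ _ _ h]
      exact ⟨le_rfl, ha⟩
  · -- H2
    intro m l hl X hX0 hX
    let χ : Fin (m + 1) → ℕ → ℝ := fun i t =>
      if i = 0 then (if t = a then 1 else 0)
      else if t = a then 0 else if X i = A then α t else β t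
    have hχ : ∀ i p j, X i p j = ∑ t ∈ range (a + 1), χ i t * r (t + 1) (y p j) := by
      intro i p j
      rw [Finset.sum_range_succ]
      by_cases hi : i = 0
      · subst hi
        rw [hX0]
        have h1 : ∀ t ∈ range a, χ 0 t * r (t + 1) (y p j) = 0 := by
          intro t ht
          have : t ≠ a := by rw [Finset.mem_range] at ht; omega
          simp [χ, this]
        rw [Finset.sum_eq_zero h1]
        simp only [χ, if_true, one_mul, zero_add]
        exact hAB p j
      · have h2 : χ i a = 0 := by simp [χ, hi]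
        rw [h2, zero_mul, add_zero]
        obtain ⟨i', rfl⟩ := Fin.exists_succ_eq.2 hi
        by_cases h : X i'.succ = A
        · rw [h]
          refine Finset.sum_congr rfl fun t ht => ?_
          have : t ≠ a := by rw [Finset.mem_range] at ht; omega
          simp only [χ, hi, this, if_false, h, if_true]
        · rcases hX i' with h' | h'
          · exact absurd h' h
          · rw [h']
            refine Finset.sum_congr rfl fun t ht => ?_
            have h3 : t ≠ a := by rw [Finset.mem_range] at ht; omega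
            simp only [χ, hi, h3, if_false, h, if_false]
    have hχnn : ∀ i t, 0 ≤ χ i t := by
      intro i t
      simp only [χ]
      split_ifs
      · exact zero_le_one
      · exact le_rfl
      · exact le_rfl
      · exact hα t
      · exact hβ t
    rw [expand k r y hr1 (m + 1) l hl (a + 1) χ d X hχ,
      expand k r y hr1 (m + 1) l hl (a + 1) χ c X hχ, Finset.mul_sum]
    apply Finset.sum_le_sum
    intro g hg
    have hg' : ∀ i, g i < a + 1 := fun i => by
      have := (Fintype.mem_piFinset.1 hg) i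
      rwa [Finset.mem_range] at this
    rw [mul_left_comm]
    by_cases hg0 : g 0 = a
    · apply mul_le_mul_of_nonneg_left _ (Finset.prod_nonneg fun i _ => hχnn _ _)
      have hl' : Function.Injective (fun i => (l i : ℕ)) := fun i i' h => hl (Fin.ext h)
      apply hunb (Function.extend (fun i => (l i : ℕ)) (fun i => g i + 1) (fun _ => 1))
      · intro j hj
        by_cases h : ∃ i, (l i : ℕ) = j
        · obtain ⟨i, rfl⟩ := h
          have := hl'.extend_apply (fun i => g i + 1) (fun _ => 1) i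
          rw [this]
          exact ⟨by omega, hg' i⟩
        · rw [Function.extend_apply' _ _ _ h]
          exact ⟨le_rfl, by omega⟩
      · refine ⟨l 0, (l 0).2, ?_⟩
        have := hl'.extend_apply (fun i => g i + 1) (fun _ => 1) 0
        rw [this, hg0]
    · have h0 : ∏ i, χ i (g i) = 0 := by
        apply Finset.prod_eq_zero (Finset.mem_univ 0)
        simp [χ, hg0]
      rw [h0, zero_mul, zero_mul]

end
end Pool.Agent.MP_44310b
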